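import Pool.Agent.Lib.MP_3240be_co.M3.Defs
import Pool.Agent.Lib.MP_3240be_co.N49.Kew
import Pool.Agent.Lib.MP_3240be_co.N49.Kec

/-!
# MP_3240be_co, board M3, row KEY (helper30): the forced colours

Port of N49/Kew.lean (helper72) and N49/Kec.lean (helper30) to `MData`.
-/

set_option autoImplicit false

namespace MP3240M

open Finset MP3240T MP3240W
open MP3240N (Sig BigC CopyB Homog SP sm plc KN NoCut kew_emb kec_count)
open Pool.Agent.Lib.MP_3240be_co.H36 (LocCol Blow)

/-- `r` sets of `n` vertices and `h + 1` further vertices, completely joined, contain `H`. -/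
theorem key_join {n r h : ℕ} {H : SimpleGraph (Fin n)} (D : MData H r h) {V : Type}
    (G : SimpleGraph V) (F : Fin r → Fin n → V) (hF : ∀ i, Function.Injective (F i))
    (hFF : ∀ i j, i ≠ j → ∀ u w, G.Adj (F i u) (F j w)) (T : Finset V) (hT : h < T.card)
    (hTF : ∀ s ∈ T, ∀ i u, G.Adj s (F i u)) : Emb H G := by
  classical
  have hne : T.Nonempty := Finset.card_pos.1 (by omega)
  obtain ⟨v₀, hv₀⟩ := hne
  have ht : ∃ t : Fin n → V, (∀ x, D.κ x = none → t x ∈ T) ∧
      ∀ x y, D.κ x = none → D.κ y = none → t x = t y → x = y := by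
    set B : Finset (Fin n) := univ.filter (fun x => D.κ x = none) with hB
    have hBc : B.card ≤ T.card := by
      rw [hB, D.cardA]
      exact hT
    have hBm : ∀ x, D.κ x = none → x ∈ B := fun x hx => by simp [hB, hx]
    obtain ⟨t, ht1, ht2⟩ := Pool.Agent.Lib.MP_3240be_co.H36.exists_inj T B.card hBc
    refine ⟨fun x => if hx : x ∈ B then t (B.equivFin ⟨x, hx⟩) else v₀, ?_, ?_⟩
    · intro x hx
      simp only [dif_pos (hBm x hx)]
      exact ht2 _
    · intro x y hx hy hxy
      simp only [dif_pos (hBm x hx), dif_pos (hBm y hy)] at hxy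
      exact congrArg Subtype.val (B.equivFin.injective (ht1 hxy))
  obtain ⟨t, ht1, ht2⟩ := ht
  let f : Fin n → V := fun x => match D.κ x with
    | none => t x
    | some j => F j x
  have hf : ∀ x, (D.κ x = none ∧ f x = t x) ∨ ∃ j, D.κ x = some j ∧ f x = F j x := by
    intro x
    rcases hκ : D.κ x with _ | j
    · left
      refine ⟨rfl, ?_⟩
      simp only [f, hκ]
    · right
      refine ⟨j, rfl, ?_⟩
      simp only [f, hκ]
  refine ⟨f, ?_, ?_⟩
  · intro x y hxy
    rcases hf x with ⟨hx0, hx⟩ | ⟨j, hj, hx⟩ <;> rcases hf y with ⟨hy0, hy⟩ | ⟨l, hl, hy⟩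
    · exact ht2 x y hx0 hy0 (hx.symm.trans (hxy.trans hy))
    · exact absurd (hx.symm.trans (hxy.trans hy)) (hTF _ (ht1 x hx0) _ _).ne
    · exact absurd (hy.symm.trans (hxy.symm.trans hx)) (hTF _ (ht1 y hy0) _ _).ne
    · have h1 : F j x = F l y := hx.symm.trans (hxy.trans hy)
      by_cases hjl : j = l
      · subst hjl
        exact hF j h1
      · exact absurd h1 (hFF j l hjl _ _).ne
  · intro x y hxy
    have hκ := D.prop x y hxy
    rcases hf x with ⟨hx0, hx⟩ | ⟨j, hj, hx⟩ <;> rcases hf y with ⟨hy0, hy⟩ | ⟨l, hl, hy⟩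
    · exact absurd (hx0.trans hy0.symm) hκ
    · rw [hx, hy]
      exact hTF _ (ht1 x hx0) _ _
    · rw [hx, hy]
      exact (hTF _ (ht1 y hy0) _ _).symm
    · have hjl : j ≠ l := by
        intro h0
        rw [hj, hl, h0] at hκ
        exact hκ rfl
      rw [hx, hy]
      exact hFF j l hjl _ _

/-- The part of KEY without hubs. -/
theorem key_kew {n r h b₀ : ℕ} {H : SimpleGraph (Fin n)} (D : MData H r h)
    {B : SimpleGraph (Fin b₀)} {V : Type} {G : SimpleGraph V} {c : V → V → Bool}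
    {E : Fin r → Fin b₀ → V} {η : Fin r → Fin r → Bool} {ρ : Fin r → Bool → ℕ} (hr : 2 ≤ r)
    (hc : ∀ x y, c x y = c y x) (hno : ∀ b, ¬ Emb H (cls G c b))
    (hE : ∀ j, Function.Injective (E j)) (hadj : ∀ j j' x y, j ≠ j' → G.Adj (E j x) (E j' y))
    (hη : ∀ j j' x y, j ≠ j' → c (E j x) (E j' y) = η j j')
    (hB : ∀ j x y, B.Adj x y → G.Adj (E j x) (E j y))
    (hBl : ∀ j b, Blow B (fun x y => c (E j x) (E j y)) n (ρ j b) b)
    (hρ : ∀ j, r + 1 ≤ ρ j true + ρ j false) :
    ∃ b, (∀ j j', j ≠ j' → η j j' = b) ∧ ∀ j, ρ j b = 1 ∧ ρ j (!b) = r := by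
  have hw : ∀ b (S : Finset (Fin r)), (∀ i ∈ S, ∀ j ∈ S, i ≠ j → η i j = b) →
      ∑ i ∈ S, ρ i b ≤ r := by
    intro b S hS
    by_contra hcon
    push Not at hcon
    exact hno b (kew_emb D.prop hc hE hadj hη hB hBl b S hS hcon)
  have hsing : ∀ i b, ρ i b ≤ r := by
    intro i b
    have h1 := hw b {i} (by
      intro x hx y hy hxy
      rw [mem_singleton] at hx hy
      exact absurd (hx.trans hy.symm) hxy)
    rwa [sum_singleton] at h1
  have h1 : ∀ i b, 1 ≤ ρ i b := by
    intro i b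
    have h2 := hsing i (!b)
    have h3 := hρ i
    cases b with
    | true =>
      simp only [Bool.not_true] at h2
      omega
    | false =>
      simp only [Bool.not_false] at h2
      omega
  -- there is a vertex of `B`
  have hb : Nonempty (Fin b₀) := by
    obtain ⟨F, -, -⟩ := hBl ⟨0, by omega⟩ true
    have h2 : 0 < (univ.filter (fun x => D.κ x = none)).card := by
      rw [D.cardA]
      exact Nat.succ_pos h
    obtain ⟨α, -⟩ := Finset.card_pos.1 h2
    exact ⟨F ⟨0, h1 _ true⟩ α⟩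
  obtain ⟨x₀⟩ := hb
  have hsym : ∀ i j, η i j = η j i := by
    intro i j
    by_cases hij : i = j
    · rw [hij]
    · rw [← hη i j x₀ x₀ hij, ← hη j i x₀ x₀ (Ne.symm hij)]
      exact hc _ _
  obtain ⟨b, hb1, hb2⟩ := MP3240S.weight_proof r η ρ hr hsym h1 hρ hw
  refine ⟨b, hb1, fun j => ⟨hb2 j, ?_⟩⟩
  have h2 := hsing j (!b)
  have h3 := hρ j
  have h4 := hb2 j
  cases b with
  | true =>
    simp only [Bool.not_true] at h2 ⊢
    omega
  | false =>
    simp only [Bool.not_false] at h2 ⊢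
    omega

/-- The part of KEY with the hubs. -/
theorem key_kec {n r h b₀ : ℕ} {H : SimpleGraph (Fin n)} (D : MData H r h)
    {B : SimpleGraph (Fin b₀)} {V : Type} {G : SimpleGraph V} {c : V → V → Bool}
    {E : Fin r → Fin b₀ → V} {b : Bool} {A : Type} [Fintype A] {φ : A → V} {θ : A → Fin r → Bool}
    (hc : ∀ x y, c x y = c y x) (hH : ∀ b, ¬ Emb H (cls G c b))
    (hE : ∀ j, Function.Injective (E j)) (hEG : ∀ j j' x y, j ≠ j' → G.Adj (E j x) (E j' y))
    (hEc : ∀ j j' x y, j ≠ j' → c (E j x) (E j' y) = b)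
    (hBG : ∀ j x y, B.Adj x y → G.Adj (E j x) (E j y))
    (hb1 : ∀ j, Blow B (fun x y => c (E j x) (E j y)) n 1 b)
    (hbr : ∀ j, Blow B (fun x y => c (E j x) (E j y)) n r (!b))
    (hφ : Function.Injective φ) (hφG : ∀ a j x, G.Adj (φ a) (E j x))
    (hφc : ∀ a j x, c (φ a) (E j x) = θ a j) (hA : (r + 1) * h ≤ Fintype.card A) :
    (∀ a j j', θ a j = !b → θ a j' = !b → j = j') ∧
      ∀ s j, (∀ x, G.Adj s (E j x)) → (∀ x, c s (E j x) = !b) → ∃ a, s = φ a := by
  classical
  -- a set of vertices joined to `E j` in colour `!b` has at most `h` elements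
  have hT1 : ∀ (j : Fin r) (T : Finset V), (∀ s ∈ T, ∀ x, G.Adj s (E j x)) →
      (∀ s ∈ T, ∀ x, c s (E j x) = !b) → T.card ≤ h := by
    intro j T hT hTc
    by_contra hlt
    push Not at hlt
    obtain ⟨F, hF1, hF2⟩ := hbr j
    refine hH (!b) (key_join D (cls G c (!b)) (fun i u => E j (F i u))
      (fun i => (hE j).comp (hF1 i)) (fun i i' hii u w => ?_) T hlt (fun s hs i u => ?_))
    · obtain ⟨h2, h3⟩ := hF2 i i' hii u w
      exact ⟨hBG j _ _ h2, h3, by rw [hc]; exact h3⟩
    · exact ⟨hT s hs _, hTc s hs _, by rw [hc]; exact hTc s hs _⟩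
  -- a set of vertices joined to all copies in colour `b` has at most `h` elements
  have hT0 : ∀ T : Finset V, (∀ s ∈ T, ∀ j x, G.Adj s (E j x)) →
      (∀ s ∈ T, ∀ j x, c s (E j x) = b) → T.card ≤ h := by
    intro T hT hTc
    by_contra hlt
    push Not at hlt
    have hbl : ∀ _j : Fin r, ∃ F : Fin n → Fin b₀, Function.Injective F := by
      intro j
      obtain ⟨F, hF1, _⟩ := hb1 j
      exact ⟨F 0, hF1 0⟩
    choose F hF using hbl
    refine hH b (key_join D (cls G c b) (fun j u => E j (F j u))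
      (fun j => (hE j).comp (hF j)) (fun i i' hii u w => ?_) T hlt (fun s hs i u => ?_))
    · exact ⟨hEG i i' _ _ hii, hEc i i' _ _ hii, by rw [hc]; exact hEc i i' _ _ hii⟩
    · exact ⟨hT s hs _ _, hTc s hs _ _, by rw [hc]; exact hTc s hs _ _⟩
  have h1 : ∀ j, (univ.filter (fun a => θ a j = !b)).card ≤ h := by
    intro j
    rw [← Finset.card_image_of_injective _ hφ]
    refine hT1 j _ (fun s hs x => ?_) (fun s hs x => ?_)
    · obtain ⟨a, _, rfl⟩ := Finset.mem_image.1 hs
      exact hφG a j x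
    · obtain ⟨a, ha, rfl⟩ := Finset.mem_image.1 hs
      rw [hφc]
      exact (Finset.mem_filter.1 ha).2
  have h0 : (univ.filter (fun a => ∀ j, θ a j = b)).card ≤ h := by
    rw [← Finset.card_image_of_injective _ hφ]
    refine hT0 _ (fun s hs j x => ?_) (fun s hs j x => ?_)
    · obtain ⟨a, _, rfl⟩ := Finset.mem_image.1 hs
      exact hφG a j x
    · obtain ⟨a, ha, rfl⟩ := Finset.mem_image.1 hs
      rw [hφc]
      exact (Finset.mem_filter.1 ha).2 j
  obtain ⟨h2, h3⟩ := kec_count θ b hA h0 h1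
  refine ⟨h2, fun s j hs hsc => ?_⟩
  by_contra hne
  push Not at hne
  have h4 := hT1 j (insert s ((univ.filter (fun a => θ a j = !b)).image φ))
    (fun t ht x => ?_) (fun t ht x => ?_)
  · rw [Finset.card_insert_of_notMem, Finset.card_image_of_injective _ hφ, h3 j] at h4
    · omega
    · intro hmem
      obtain ⟨a, _, ha⟩ := Finset.mem_image.1 hmem
      exact hne a ha.symm
  · rcases Finset.mem_insert.1 ht with rfl | ht
    · exact hs x
    · obtain ⟨a, _, rfl⟩ := Finset.mem_image.1 ht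
      exact hφG a j x
  · rcases Finset.mem_insert.1 ht with rfl | ht
    · exact hsc x
    · obtain ⟨a, ha, rfl⟩ := Finset.mem_image.1 ht
      rw [hφc]
      exact (Finset.mem_filter.1 ha).2

/-- **Row KEY.** -/
theorem key_proof : KeyStatement := by
  intro n r h b₀ H D B V G c E η ρ A _ φ θ hr hc hH hE hEG hEc hBG hbl hρ hφ hφG hφc hA
  obtain ⟨b, hb1, hb2⟩ := key_kew D hr hc hH hE hEG hEc hBG hbl hρ
  obtain ⟨h3, h4⟩ := key_kec (b := b) (φ := φ) (θ := θ) D hc hH hE hEG
    (fun j j' x y hjj => (hEc j j' x y hjj).trans (hb1 j j' hjj)) hBG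
    (fun j => by rw [← (hb2 j).1]; exact hbl j b)
    (fun j => by
      have h5 := hbl j (!b)
      rwa [(hb2 j).2] at h5) hφ hφG hφc hA
  exact ⟨b, hb1, hb2, h3, h4⟩

/-- **Row JOI** (the same statement). -/
theorem key_joi : JoiStatement := fun _ _ _ _ D _ G F T hF hFF hT hTF =>
  key_join D G F hF hFF T hT hTF

end MP3240M
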