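import Pool.Agent.Lib.MP_3240be_co.M3.Defs

/-!
# MP_3240be_co, Theorem M: row RAM (pigeon hole and the bipartite Ramsey theorem)
-/

set_option autoImplicit false

namespace MP3240M

/-- The pigeon hole principle with an injective enumeration of `n` elements of a fibre. -/
theorem Ram.pig {A B : Type} [Fintype A] [Fintype B] [Nonempty B] (n : ℕ) (f : A → B)
    (h : Fintype.card B * n ≤ Fintype.card A) :
    ∃ (y : B) (e : Fin n → A), Function.Injective e ∧ ∀ a, f (e a) = y := by
  classical
  obtain ⟨y, hy⟩ := Fintype.exists_le_card_fiber_of_mul_le_card f h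
  obtain ⟨s, hs, hc⟩ := Finset.exists_subset_card_eq hy
  have hcard : Fintype.card (Fin n) = Fintype.card s := by
    rw [Fintype.card_fin, Fintype.card_coe, hc]
  let g : Fin n ≃ s := Fintype.equivOfCardEq hcard
  refine ⟨y, fun a => (g a : A), fun a a' haa => g.injective (Subtype.ext haa), fun a => ?_⟩
  have := hs (g a).2
  simpa using this

/-- Row RAM. -/
theorem ram_proof : RamStatement := by
  intro n K hK
  classical
  haveI : Fintype K := Fintype.ofFinite K
  set N₁ : ℕ := 2 * n + Fintype.card (Fin (2 * n) → Bool) * n with hN₁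
  refine ⟨Fintype.card K * N₁ + 1, Nat.le_add_left 1 _, ?_⟩
  intro f η
  haveI : Nonempty K := ⟨f ⟨0, Nat.succ_pos _⟩⟩
  obtain ⟨k, g, hg, hfg⟩ := Ram.pig (A := Fin (Fintype.card K * N₁ + 1)) N₁ f (by
    rw [Fintype.card_fin]
    exact Nat.le_succ _)
  have h2 : 2 * n ≤ N₁ := Nat.le_add_right _ _
  -- the vectors of colours to the first `2 n` points
  obtain ⟨v, e', he', hv⟩ := Ram.pig (A := Fin N₁) (B := Fin (2 * n) → Bool) n
    (fun x a => η (g (Fin.castLE h2 a)) (g x)) (by
      rw [Fintype.card_fin]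
      exact Nat.le_add_left _ _)
  obtain ⟨β, e, he, hβ⟩ := Ram.pig (A := Fin (2 * n)) (B := Bool) n v (by
    rw [Fintype.card_fin, Fintype.card_bool])
  refine ⟨fun a => g (Fin.castLE h2 (e a)), fun a => g (e' a), k, β,
    fun a a' haa => he (Fin.castLE_injective h2 (hg haa)), fun a a' haa => he' (hg haa),
    fun a => hfg _, fun a => hfg _, fun a a' => ?_⟩
  rw [← hβ a, ← hv a']

end MP3240M
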