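import Pool.Agent.Lib.MP_3240be_co.M3.Defs
import Pool.Agent.Lib.MP_3240be_co.N49.Crn

/-!
# MP_3240be_co, Theorem M, row CRM (the final form)
-/

set_option autoImplicit false

namespace MP3240M

open Finset MP3240T MP3240W
open MP3240N (Sig NoCut)

theorem crm_proof (h : MnmStatement) (hN : MP3240N.CrnStatement) (hC : CloStatement)
    (hT : TwoStatement) : CrmStatement := by
  classical
  intro n n' H H' h3 hcut hc3 hc2 hH' hemb hnemb
  have hconn := MP3240N.connected_of_noCut h3 hcut
  have htwo := hT n H h3 hconn hcut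
  -- a smallest colour class
  have hex : ∃ m : ℕ, ∃ (κ : Fin n → Fin 3) (a : Fin 3), (∀ i j, H.Adj i j → κ i ≠ κ j) ∧
      (univ.filter (fun x => κ x = a)).card = m := by
    obtain ⟨C⟩ := hc3
    exact ⟨_, C, 0, fun i j hij => C.valid hij, rfl⟩
  obtain ⟨κ, a, hκ, hm⟩ := Nat.find_spec hex
  have hmin : ∀ κ' : Fin n → Fin 3, (∀ i j, H.Adj i j → κ' i ≠ κ' j) → ∀ a',
      (univ.filter (fun x => κ x = a)).card ≤ (univ.filter (fun x => κ' x = a')).card := by
    intro κ' h' a'
    rw [hm]
    exact Nat.find_min' hex ⟨κ', a', h', rfl⟩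
  -- it is not empty
  have hne : ∃ α, κ α = a := by
    by_contra hcon
    push Not at hcon
    have h4 : ∀ x, ∃ y : Fin 2, a.succAbove y = κ x := fun x => Fin.exists_succAbove_eq (hcon x)
    choose y hy using h4
    apply hc2
    refine ⟨SimpleGraph.Coloring.mk y ?_⟩
    intro i j hij heq
    apply hκ i j hij
    rw [← hy i, ← hy j, heq]
  obtain ⟨α, hα⟩ := hne
  subst hα
  by_cases htri : ∃ i j k, H.Adj i j ∧ H.Adj j k ∧ H.Adj i k
  · obtain ⟨x, y, hxy, hfree⟩ := hC n H htwo hconn htri
    have hpos : 0 < (univ.filter (fun x => κ x = κ α)).card := card_pos.mpr ⟨α, by simp⟩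
    obtain ⟨g, hg⟩ : ∃ g, (univ.filter (fun x => κ x = κ α)).card = g + 1 :=
      ⟨(univ.filter (fun x => κ x = κ α)).card - 1, by omega⟩
    set τ : Fin (2 + 1) ≃ Option (Fin 2) := finSuccEquiv' (κ α) with hτ
    have hτα : τ (κ α) = none := by rw [hτ]; exact finSuccEquiv'_at _
    have hcl : ∀ x, τ (κ x) = none ↔ κ x = κ α := by
      intro x
      rw [← hτα]
      exact τ.apply_eq_iff_eq
    have D : MData H 2 g :=
      { κ := fun x => τ (κ x)
        prop := fun i j hij heq => hκ i j hij (τ.injective heq)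
        cardA := by
          rw [← hg]
          congr 1
          ext x
          simp only [mem_filter, mem_univ, true_and]
          exact hcl x }
    have hsig : Sig H 2 g := by
      intro κ' hκ'
      have h4 := hmin (fun x => τ.symm (κ' x)) (fun i j hij heq => hκ' i j hij
        (τ.symm.injective heq)) (κ α)
      have h5 : (univ.filter (fun x => τ.symm (κ' x) = κ α))
          = univ.filter (fun x => κ' x = none) := by
        ext x
        simp only [mem_filter, mem_univ, true_and]
        rw [← hτα]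
        exact τ.symm_apply_eq
      rw [h5, hg] at h4
      omega
    exact h n n' g H H' x y D hxy hfree hsig hconn htwo hH' hemb hnemb
  · exact hN n n' 3 H H' κ α h3 le_rfl hcut hκ hc2 (fun κ' h' a' => hmin κ' h' a')
      (fun i j hi hj hij => htri ⟨α, i, j, hi, hij, hj⟩) hH' hemb hnemb

end MP3240M
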