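import Pool.Agent.Lib.MP_3240be_co.M3.Defs
import Pool.Agent.Lib.MP_3240be_co.M64.Emb

/-!
# MP_3240be_co, board M3, row EM1: embedding for RULE 1
-/

set_option autoImplicit false

namespace MP3240M

open Finset MP3240T MP3240W

theorem em1_proof : Em1Statement := by
  intro n r h H D V G E U v j₀ S hE hU hEE hUE hvE hvS hS hUS hSE hS0 hv0 hvU
  exact em1 D.κ D.prop D.cardA G E U v j₀ S hE hU hEE hUE hS hvS hUS
    (fun j hj a ha x => hSE a ha j x hj) (fun j hj x => hvE j x hj)
    (fun a ha x => hS0 a ha j₀ x) (fun x => hv0 j₀ x) hvU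

end MP3240M
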