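import Pool.Agent.Lib.MP_3240be_co.M3.Defs

/-!
# MP_3240be_co, board m3_modules: row EMA (helper16)
-/

set_option autoImplicit false

namespace MP3240M

open Finset MP3240T MP3240W

theorem ema_proof : EmaStatement := by
  classical
  intro n h H hA V G E L U P hE hL hU hP hEE hUE hUL hPL hLE hLnE hLL hPE hPU
  obtain ⟨I, X, κ, hI, hN, hX, hXc, hNX, hκ⟩ := hA
  have hi : ∃ i : {x // x ∈ X} → Fin h, Function.Injective i :=
    ⟨fun x => Fin.castLE hXc (X.equivFin x), fun x y hxy =>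
      X.equivFin.injective (Fin.castLE_injective hXc hxy)⟩
  obtain ⟨i, hi⟩ := hi
  let f : Fin n → V := fun v => if v ∈ I then P v else if hx : v ∈ X then U (i ⟨v, hx⟩) else
    if ∃ a ∈ I, H.Adj a v then L (κ v) v else E (κ v) v
  have hf : ∀ v, (v ∈ I ∧ f v = P v) ∨ (v ∉ I ∧ ∃ hx : v ∈ X, f v = U (i ⟨v, hx⟩)) ∨
      (v ∉ I ∧ v ∉ X ∧ (∃ a ∈ I, H.Adj a v) ∧ f v = L (κ v) v) ∨
      (v ∉ I ∧ v ∉ X ∧ (¬ ∃ a ∈ I, H.Adj a v) ∧ f v = E (κ v) v) := by
    intro v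
    by_cases h1 : v ∈ I
    · exact Or.inl ⟨h1, if_pos h1⟩
    · by_cases h2 : v ∈ X
      · refine Or.inr (Or.inl ⟨h1, h2, ?_⟩)
        simp only [f]
        rw [if_neg h1, dif_pos h2]
      · by_cases h3 : ∃ a ∈ I, H.Adj a v
        · refine Or.inr (Or.inr (Or.inl ⟨h1, h2, h3, ?_⟩))
          simp only [f]
          rw [if_neg h1, dif_neg h2, if_pos h3]
        · refine Or.inr (Or.inr (Or.inr ⟨h1, h2, h3, ?_⟩))
          simp only [f]
          rw [if_neg h1, dif_neg h2, if_neg h3]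
  have hEE' : ∀ j x y, G.Adj (E j x) (E (!j) y) := by
    intro j x y
    cases j
    · exact hEE x y
    · exact (hEE y x).symm
  have hLL' : ∀ j x y, L j x ≠ L (!j) y := by
    intro j x y
    cases j
    · exact hLL x y
    · exact (hLL y x).symm
  refine ⟨f, ?_, ?_⟩
  · intro x y hxy
    rcases hf x with ⟨-, hx⟩ | ⟨-, hx', hx⟩ | ⟨-, -, -, hx⟩ | ⟨-, -, -, hx⟩ <;>
      rcases hf y with ⟨-, hy⟩ | ⟨-, hy', hy⟩ | ⟨-, -, -, hy⟩ | ⟨-, -, -, hy⟩ <;>
      have h0 := hx.symm.trans (hxy.trans hy)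
    · exact hP h0
    · exact absurd h0 (hPU _ _)
    · exact absurd h0 (hPL _ _ _).ne
    · exact absurd h0 (hPE _ _ _)
    · exact absurd h0.symm (hPU _ _)
    · exact congrArg Subtype.val (hi (hU h0))
    · exact absurd h0 (hUL _ _ _).ne
    · exact absurd h0 (hUE _ _ _).ne
    · exact absurd h0.symm (hPL _ _ _).ne
    · exact absurd h0.symm (hUL _ _ _).ne
    · by_cases hk : κ x = κ y
      · rw [hk] at h0
        exact hL _ h0
      · rw [(Bool.eq_not.2 hk : κ x = !κ y)] at h0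
        exact absurd h0.symm (hLL' _ _ _)
    · exact absurd h0 (hLnE _ _ _ _)
    · exact absurd h0.symm (hPE _ _ _)
    · exact absurd h0.symm (hUE _ _ _).ne
    · exact absurd h0.symm (hLnE _ _ _ _)
    · by_cases hk : κ x = κ y
      · rw [hk] at h0
        exact hE _ h0
      · rw [(Bool.eq_not.2 hk : κ x = !κ y)] at h0
        exact absurd h0.symm (hEE' _ _ _).ne
  · intro x y hxy
    rcases hf x with ⟨hx1, hx⟩ | ⟨hx1, hx', hx⟩ | ⟨hx1, hx2, hx3, hx⟩ | ⟨hx1, hx2, hx3, hx⟩ <;>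
      rcases hf y with ⟨hy1, hy⟩ | ⟨hy1, hy', hy⟩ | ⟨hy1, hy2, hy3, hy⟩ | ⟨hy1, hy2, hy3, hy⟩ <;>
      rw [hx, hy]
    · exact absurd hxy (hI _ hx1 _ hy1)
    · exact absurd hy' (hNX _ hx1 _ hxy)
    · exact hPL _ _ _
    · exact absurd ⟨x, hx1, hxy⟩ hy3
    · exact absurd hx' (hNX _ hy1 _ hxy.symm)
    · exact absurd hxy (hX _ hx' _ hy')
    · exact hUL _ _ _
    · exact hUE _ _ _
    · exact (hPL _ _ _).symm
    · exact (hUL _ _ _).symm
    · obtain ⟨a, ha, hax⟩ := hx3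
      obtain ⟨b, hb, hby⟩ := hy3
      exact absurd hxy (hN a ha b hb x y hax hby)
    · have hk := hκ x y hxy hx1 hy1 hx2 hy2
      rw [(Bool.eq_not.2 fun h0 => hk h0.symm : κ y = !κ x)]
      exact hLE _ _ _
    · exact absurd ⟨y, hy1, hxy.symm⟩ hx3
    · exact (hUE _ _ _).symm
    · have hk := hκ x y hxy hx1 hy1 hx2 hy2
      rw [(Bool.eq_not.2 hk : κ x = !κ y)]
      exact (hLE _ _ _).symm
    · have hk := hκ x y hxy hx1 hy1 hx2 hy2
      rw [(Bool.eq_not.2 hk : κ x = !κ y)]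
      exact (hEE' _ _ _).symm

end MP3240M
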