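import Pool.Agent.Lib.MP_3240be_co.M3.Defs

/-!
# MP_3240be_co, board M3: row HST
-/

set_option autoImplicit false

namespace MP3240M

open Finset MP3240T MP3240W
open MP3240N (Sig BigC CopyB Homog SP sm plc KN NoCut)
open Pool.Agent.Lib.MP_3240be_co.H36 (LocCol Blow)

theorem hst_plc_isNone {I : Type} (i : I) (lv : Bool) : (plc i lv).isNone = lv := by
  cases lv <;> rfl

theorem hst_proof : HstStatement := by
  intro n h q L τ r b₀ T K' I M pd B c hHo Cs i S
  obtain ⟨e, he⟩ := hHo.hom
    (fun a e => CopM B T pd c (plc i a.1) a.2 (Cs.s (plc i a.1) a.2) e)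
    (by
      rintro ⟨lv, w⟩ e h1
      have h2 := h1.1
      rw [hst_plc_isNone] at h2
      exact h2)
    (by
      rintro ⟨lv, w⟩
      have h1 := Cs.big (plc i lv) w
      rw [hst_plc_isNone] at h1
      exact h1)
    (fun a t z => match z with
      | .inl k => c (.u k) (.l (plc i a.1) a.2 t)
      | .inr (.inl p) => c (.c (plc i p.1) p.2.1 p.2.2) (.l (plc i a.1) a.2 t)
      | .inr (.inr k) => c (S k) (.l (plc i a.1) a.2 t))
    (fun a t a' t' => c (.l (plc i a.1) a.2 t) (.l (plc i a'.1) a'.2 t'))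
  refine ⟨⟨fun lv w => e (lv, w), ?_, ?_, ?_, ?_⟩⟩
  · intro lv w
    exact (he (lv, w)).1
  · intro lv w lv' w' k x y
    exact congrFun ((he (lv, w)).2.1 x y) (.inr (.inl (lv', w', k)))
  · intro lv w k x y
    exact congrFun ((he (lv, w)).2.1 x y) (.inr (.inr k))
  · intro lv w lv' w' hw x y x' y'
    exact (he (lv, w)).2.2 (lv', w') (fun h1 => hw (congrArg Prod.snd h1)) x y x' y'

end MP3240M
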