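import Pool.Agent.Lib.MP_3240be_co.M3.Defs

/-!
# Row JOI: `r` sets of `n` vertices and `h + 1` further vertices, completely joined, contain `H`

Copy of `kec_join` (N49/Kec.lean) for `MData`.
-/

set_option autoImplicit false

namespace MP3240M

open Finset MP3240T MP3240W

theorem joi_proof : JoiStatement := by
  intro n r h H D V G F T hF hFF hT hTF
  classical
  have hne : T.Nonempty := Finset.card_pos.1 (by omega)
  obtain ⟨v₀, hv₀⟩ := hne
  have ht : ∃ t : Fin n → V, (∀ x, D.κ x = none → t x ∈ T) ∧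
      ∀ x y, D.κ x = none → D.κ y = none → t x = t y → x = y := by
    set B : Finset (Fin n) := univ.filter (fun x => D.κ x = none) with hB
    have hBc : B.card ≤ T.card := by
      rw [hB, D.cardA]
      exact hT
    have hBm : ∀ x, D.κ x = none → x ∈ B := fun x hx => by simp [hB, hx]
    obtain ⟨t, ht1, ht2⟩ := Pool.Agent.Lib.MP_3240be_co.H36.exists_inj T B.card hBc
    refine ⟨fun x => if hx : x ∈ B then t (B.equivFin ⟨x, hx⟩) else v₀, ?_, ?_⟩
    · intro x hx
      simp only [dif_pos (hBm x hx)]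
      exact ht2 _
    · intro x y hx hy hxy
      simp only [dif_pos (hBm x hx), dif_pos (hBm y hy)] at hxy
      exact congrArg Subtype.val (B.equivFin.injective (ht1 hxy))
  obtain ⟨t, ht1, ht2⟩ := ht
  let f : Fin n → V := fun x => match D.κ x with
    | none => t x
    | some j => F j x
  have hf : ∀ x, (D.κ x = none ∧ f x = t x) ∨ ∃ j, D.κ x = some j ∧ f x = F j x := by
    intro x
    rcases hκ : D.κ x with _ | j
    · left
      refine ⟨rfl, ?_⟩
      simp only [f, hκ]
    · right
      refine ⟨j, rfl, ?_⟩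
      simp only [f, hκ]
  refine ⟨f, ?_, ?_⟩
  · intro x y hxy
    rcases hf x with ⟨hx0, hx⟩ | ⟨j, hj, hx⟩ <;> rcases hf y with ⟨hy0, hy⟩ | ⟨l, hl, hy⟩
    · exact ht2 x y hx0 hy0 (hx.symm.trans (hxy.trans hy))
    · exact absurd (hx.symm.trans (hxy.trans hy)) (hTF _ (ht1 x hx0) _ _).ne
    · exact absurd (hy.symm.trans (hxy.symm.trans hx)) (hTF _ (ht1 y hy0) _ _).ne
    · have h1 : F j x = F l y := hx.symm.trans (hxy.trans hy)
      by_cases hjl : j = l
      · subst hjl
        exact hF j h1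
      · exact absurd h1 (hFF j l hjl _ _).ne
  · intro x y hxy
    have hκ := D.prop x y hxy
    rcases hf x with ⟨hx0, hx⟩ | ⟨j, hj, hx⟩ <;> rcases hf y with ⟨hy0, hy⟩ | ⟨l, hl, hy⟩
    · exact absurd (hx0.trans hy0.symm) hκ
    · rw [hx, hy]
      exact hTF _ (ht1 x hx0) _ _
    · rw [hx, hy]
      exact (hTF _ (ht1 y hy0) _ _).symm
    · have hjl : j ≠ l := by
        intro h0
        rw [hj, hl, h0] at hκ
        exact hκ rfl
      rw [hx, hy]
      exact hFF j l hjl _ _

end MP3240M
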