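import Pool.Agent.Lib.MP_3240be_co.M3.Defs
import Pool.Agent.Lib.MP_3240be_co.H30.Cpt

/-!
# MP_3240be_co, Theorem M, row MNM
-/

set_option autoImplicit false

namespace MP3240M

open Finset MP3240T MP3240W
open MP3240N (Sig BigC CopyB Homog SP sm plc KN NoCut)
open Pool.Agent.Lib.MP_3240be_co.H36 (LocCol Blow)
open Pool.Agent.Lib.MP_3240be_co.H36.Chrom (Sparse)

theorem mnm_proof (hA : ArmStatement) (hN : NfmStatement) (hG : MP3240N.GrpStatement)
    (hB : MP3240N.HbStatement) (hK : Kw2Statement) (hR : RamStatement) (hH : HypStatement) :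
    MnmStatement := by
  classical
  intro n n' h H H' x y D hxy htw hsig hconn h2 hconn' hemb hnemb
  have hn2 : 2 ≤ n := by
    have h1 := x.isLt
    have h2 := y.isLt
    have h3 : x.val ≠ y.val := fun e => hxy.ne (Fin.ext e)
    omega
  -- the Ramsey number
  obtain ⟨N₀, hN₀, hRam⟩ := hR n (Fin n × Bool × (Fin (n + h) → Bool))
  -- the graph of a world
  obtain ⟨b₀, B, hBl, hBc⟩ := hB n 2 (2 * n ^ 2) (by omega)
  have hb₀ : 1 ≤ b₀ := by
    obtain ⟨A, A', h1, h3, h4⟩ := hBc (fun _ _ => true) (fun _ _ => rfl)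
    have : 0 < A ∨ 0 < A' := by omega
    rcases this with hA0 | hA0
    · obtain ⟨F, _⟩ := h3
      have := (F ⟨0, hA0⟩ x).isLt
      omega
    · obtain ⟨F, _⟩ := h4
      have := (F ⟨0, hA0⟩ x).isLt
      omega
  -- the kinds
  haveI : Finite (Fin n → Fin n → Fin n → Fin N₀ → Fin n → Bool) := inferInstance
  haveI : Finite (Fin n × Fin n × Fin n → Fin (n + h) → Fin N₀ → Bool) := inferInstance
  haveI : Finite (Fin h → Bool) := inferInstance
  haveI : Finite (ColM n h (n + h) N₀) := by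
    unfold ColM
    infer_instance
  haveI : Nonempty (ColM n h (n + h) N₀) :=
    ⟨(fun _ => true, fun _ => true, fun _ _ _ _ _ => true, fun _ _ _ => true)⟩
  obtain ⟨q, W, pd, Dk, hWl, hD1, hD2, hWc⟩ := hK n (ColM n h (n + h) N₀)
  have hq : 0 < q := by
    obtain ⟨e, _⟩ := hWc (fun _ => (fun _ => true, fun _ => true, fun _ _ _ _ _ => true,
      fun _ _ _ => true))
    have := (e ⟨0, by omega⟩).isLt
    omega
  -- the graphs of the worlds
  obtain ⟨L, T, K', hTl, hHo⟩ := hG b₀ n 2 B (by omega) hBl (Bool × Fin q) (QM 2 h)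
    (PM h) (KN n 2 h q)
  have hL : 0 < L := by
    obtain ⟨s, hs⟩ := hHo.sel (true, ⟨0, hq⟩) (fun _ => (fun _ => true, fun _ => true))
      (fun _ => ((fun _ => true, fun _ => true), fun _ => 0))
    obtain ⟨k₀⟩ := hHo.ne (true, ⟨0, hq⟩)
    obtain ⟨e, _⟩ := hs (fun _ => k₀)
    have := (e ⟨0, by omega⟩).isLt
    omega
  have hN0 : 0 < q * N₀ := Nat.mul_pos hq (by omega)
  haveI : Nonempty (Fin L) := ⟨⟨0, hL⟩⟩
  haveI : Nonempty (Fin q) := ⟨⟨0, hq⟩⟩
  obtain ⟨I, M, hI, hM, δ, hδ, hsp, hbad⟩ := hH (n * n) (q * n)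
    (SP n (q * N₀) q L) (Fin q → QM 2 h × Fin L)
    ((x, x, ⟨0, hN0⟩, x), fun _ => ⟨0, hL⟩) ((y, x, ⟨0, hN0⟩, x), fun _ => ⟨0, hL⟩)
    (fun e => hxy.ne (congrArg (fun t : SP n (q * N₀) q L => t.1.1) e))
  have hDa : (∀ w, ¬ (¬ AStar H h ∧ Dk w)) ∨ ¬ AStar H h := by
    by_cases ha : AStar H h
    · exact Or.inl fun w hw => hw.1 ha
    · exact Or.inr ha
  have hDb : AStar H h ∨ ∀ w, (¬ AStar H h ∧ Dk (pd w)) := by
    by_cases ha : AStar H h
    · exact Or.inl ha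
    · exact Or.inr fun w => ⟨ha, hD2 w⟩
  exact cpt_proof _ (FM (h := h) (τ := n + h) H x y W T
      (fun ν : Fin (q * N₀) => (finProdFinEquiv.symm ν).1) δ (fun w => ¬ AStar H h ∧ Dk w))
    n n' H H'
    (hA n h (q * N₀) q L (n + h) N₀ b₀ H D x y W T K' (fun ν => (finProdFinEquiv.symm ν).1)
      (fun w a => finProdFinEquiv (w, a)) I M δ (fun w => ¬ AStar H h ∧ Dk w) pd B hb₀ le_rfl hN₀
      hDb hxy (fun w a => by simp) (fun w a a' haa => by simpa using haa) hRam hWc hHo hBc hδ hsp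
      hbad)
    (hN n n' h (q * N₀) q L (n + h) H H' x y W T _ I M δ _ hsig hn2 hxy h2 hconn htw hWl
      (fun w w' hw hw' => hD1 w w' hw.2 hw'.2) hDa hTl hδ hsp hconn' hemb hnemb)

end MP3240M
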