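import Pool.Agent.Lib.MP_3240be_co.M3.Frc

/-!
# MP_3240be_co, board M3: row PEN (twins and the pendant worlds)
-/

set_option autoImplicit false

namespace MP3240M

open Finset MP3240T MP3240W
open MP3240N (Sig BigC CopyB Homog SP sm plc KN NoCut)
open Pool.Agent.Lib.MP_3240be_co.H36 (LocCol Blow)

theorem pen_bool {a b : Bool} (h : a ≠ !b) : a = b := by
  cases a <;> cases b <;> simp_all

theorem pen_proof (hF : FrcStatement) (hJ : JoiStatement) : PenStatement := by
  classical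
  intro n h N q L τ b₀ H D x y W T K' kd I M δ Dk pd B c hc hno Cs hH i K b hfine j₀ m ps σ κ A
    hDk hA hAu hAc hAt hcard
  obtain ⟨g, hg1, hg2⟩ := Pool.Agent.Lib.MP_3240be_co.H36.exists_inj A n hcard
  set tw : VM n h q L τ I M := .t m ps σ κ with htw
  have hsm : n + 1 ≤ sm n 2 := by unfold sm; omega
  let S : Fin (sm n 2) → VM n h q L τ I M := fun k => if hk : k.1 < n then g ⟨k.1, hk⟩ else tw
  have hSg : ∀ k : Fin n, S ⟨k.1, by omega⟩ = g k := by
    intro k
    show (if hk : k.1 < n then g ⟨k.1, hk⟩ else tw) = g k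
    rw [dif_pos k.2]
  have hSt : S ⟨n, by omega⟩ = tw := by
    show (if hk : n < n then g ⟨n, hk⟩ else tw) = tw
    rw [dif_neg (lt_irrefl n)]
  obtain ⟨Z⟩ := hH i S
  set w₀ := K j₀ with hw₀
  set w₁ := pd (K j₀) with hw₁
  have hw : W.Adj w₀ w₁ := hfine.pad j₀
  have hadj : ∀ j j' : Fin 2, j ≠ j' → W.Adj ((![w₀, w₁] : Fin 2 → Fin q) j)
      ((![w₀, w₁] : Fin 2 → Fin q) j') := by
    intro j j' hj
    fin_cases j <;> fin_cases j'
    · exact absurd rfl hj
    · exact hw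
    · exact hw.symm
    · exact absurd rfl hj
  obtain ⟨β, -, f2, -, f4⟩ := hF n h N q L τ 2 b₀ H D x y W T K' kd I M δ Dk pd B c le_rfl hc hno
    Cs i S Z ![w₀, w₁] (fun _ => true) hadj
  have hβ : β = b := by
    by_contra hne
    have h1 : (!β) = b := by cases β <;> cases b <;> simp_all
    have h2 : ((Cs.s none w₀).2 (!β) : ℕ) = 2 := (f2 0).2
    rw [h1] at h2
    have h3 := hfine.one j₀
    rw [← hw₀] at h3
    omega
  subst hβ
  -- the copy in the pendant world
  set E : Fin b₀ → VM n h q L τ I M := fun a => .l none w₁ (Z.e true w₁ a) with hE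
  have hcop : CopM B T pd c none w₁ (Cs.s none w₁) (Z.e true w₁) := Z.cop true w₁
  have hEi : Function.Injective E := by
    intro a a' haa
    injection haa with _ _ h3
    exact hcop.1.1 h3
  have hEa : ∀ a a', B.Adj a a' →
      (FM (h := h) (τ := τ) H x y W T kd δ Dk).Adj (E a) (E a') :=
    fun a a' haa => fm_adj_ll H x y W T kd δ Dk _ _ _ _ _ _
      (Or.inr ⟨rfl, rfl, hcop.1.2.1 a a' haa⟩)
  have hB1 : Blow B (fun a a' => c (E a) (E a')) n 1 β := by
    have h1 := hcop.2.2.2 β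
    have h2 : ((Cs.s none w₁).2 β : ℕ) = 1 := (f2 1).1
    rw [h2] at h1
    exact h1
  have hB2 : Blow B (fun a a' => c (E a) (E a')) n 2 (!β) := by
    have h1 := hcop.2.2.2 (!β)
    have h2 : ((Cs.s none w₁).2 (!β) : ℕ) = 2 := (f2 1).2
    rw [h2] at h1
    exact h1
  have hf4 : ∀ s, (∀ k, s ≠ .u k) → (∀ k, s ≠ .c none w₀ k) → (∀ k, s ≠ .c none w₁ k) →
      (∀ a, (FM H x y W T kd δ Dk).Adj s (E a)) → ¬ ∀ a, c s (E a) = !β := by
    intro s h1 h2 h3 h4
    refine f4 s 1 h1 ?_ h4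
    intro j' k
    fin_cases j'
    · exact h2 k
    · exact h3 k
  -- the hubs
  set Φ : Fin h ⊕ Fin h → VM n h q L τ I M :=
    Sum.elim (fun k => .u k) (fun k => .c none w₁ k) with hΦ
  have hΦi : Function.Injective Φ := by
    rintro (k | k) (k' | k') hkk
    · simp only [hΦ, Sum.elim_inl, VM.u.injEq] at hkk
      rw [hkk]
    · simp [hΦ] at hkk
    · simp [hΦ] at hkk
    · simp only [hΦ, Sum.elim_inr, VM.c.injEq] at hkk
      rw [hkk.2.2]
  have hΦE : ∀ a t, (FM (h := h) (τ := τ) H x y W T kd δ Dk).Adj (Φ a) (E t) := by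
    rintro (k | k) t
    · exact fm_adj_ul H x y W T kd δ Dk _ _ _ _
    · exact fm_adj_cl H x y W T kd δ Dk _ _ _ _ _ _ (Or.inl ⟨rfl, rfl⟩)
  have hΦc : ∀ a t t', c (Φ a) (E t) = c (Φ a) (E t') := by
    rintro (k | k) t t'
    · exact (hcop.2.1 t k).trans (hcop.2.1 t' k).symm
    · exact Z.hub true w₁ true w₁ k t t'
  have hΦA : ∀ a, ∀ s ∈ A, (FM (h := h) (τ := τ) H x y W T kd δ Dk).Adj (Φ a) s ∧
      c (Φ a) s = β := by
    rintro (k | k) s hs
    · refine ⟨?_, hAu s hs k⟩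
      obtain ⟨i', t', rfl⟩ := hA s hs
      exact fm_adj_ul H x y W T kd δ Dk _ _ _ _
    · refine ⟨?_, hAc s hs k⟩
      obtain ⟨i', t', rfl⟩ := hA s hs
      exact fm_adj_cl H x y W T kd δ Dk _ _ _ _ _ _ (Or.inr hw.symm)
  set Bad : Finset (Fin h ⊕ Fin h) := univ.filter (fun a => ∀ t, c (Φ a) (E t) = !β) with hBad
  have hBadc : Bad.card ≤ h := by
    by_contra hlt
    push Not at hlt
    obtain ⟨F, hF1, hF2⟩ := hB2
    refine hno (!β) (hJ n 2 h H D _ _ (fun j u => E (F j u)) (Bad.image Φ)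
      (fun j => hEi.comp (hF1 j)) ?_ ?_ ?_)
    · intro j j' hj u w
      refine ⟨hEa _ _ (hF2 j j' hj u w).1, (hF2 j j' hj u w).2, ?_⟩
      rw [hc]
      exact (hF2 j j' hj u w).2
    · rw [Finset.card_image_of_injective _ hΦi]
      exact hlt
    · intro s hs j u
      obtain ⟨a, ha, rfl⟩ := Finset.mem_image.1 hs
      have h1 := (Finset.mem_filter.1 ha).2
      refine ⟨hΦE a _, h1 _, ?_⟩
      rw [hc]
      exact h1 _
  set G : Finset (Fin h ⊕ Fin h) := Badᶜ with hG
  have hGood : h ≤ G.card := by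
    rw [hG, Finset.card_compl, Fintype.card_sum, Fintype.card_fin]
    omega
  -- colour `b` in `E`
  have hgE : ∀ k t, (FM (h := h) (τ := τ) H x y W T kd δ Dk).Adj (g k) (E t) := by
    intro k t
    obtain ⟨i', t', e1⟩ := hA _ (hg2 k)
    rw [e1]
    exact fm_adj_ll H x y W T kd δ Dk _ _ _ _ _ _ (Or.inl hw)
  have hgc : ∀ k t, c (g k) (E t) = β := by
    intro k t
    have h1 : ¬ ∀ a, c (g k) (E a) = !β := by
      obtain ⟨i', t', e1⟩ := hA _ (hg2 k)
      refine hf4 (g k) ?_ ?_ ?_ (hgE k)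
      · intro k'; rw [e1]; simp
      · intro k'; rw [e1]; simp
      · intro k'; rw [e1]; simp
    obtain ⟨a, ha⟩ := not_forall.1 h1
    have h2 := Z.spe true w₁ ⟨k.1, by omega⟩ t a
    rw [hSg k] at h2
    exact h2.trans (pen_bool ha)
  have htE : ∀ t, (FM (h := h) (τ := τ) H x y W T kd δ Dk).Adj tw (E t) :=
    fun t => fm_adj_tp H x y W T kd δ Dk m ps σ κ w₁ _ hDk
  have htc : ∀ t, c tw (E t) = β := by
    intro t
    have h1 : ¬ ∀ a, c tw (E a) = !β := by
      refine hf4 tw ?_ ?_ ?_ htE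
      · intro k'; simp [htw]
      · intro k'; simp [htw]
      · intro k'; simp [htw]
    obtain ⟨a, ha⟩ := not_forall.1 h1
    have h2 := Z.spe true w₁ ⟨n, by omega⟩ t a
    rw [hSt] at h2
    exact h2.trans (pen_bool ha)
  obtain ⟨F, hF1, -⟩ := hB1
  have hGE : ∀ a ∈ G, ∀ t, c (Φ a) (E t) = β := by
    intro a ha t
    have h1 : ¬ ∀ t, c (Φ a) (E t) = !β := by
      intro h2
      rw [hG, Finset.mem_compl, hBad, Finset.mem_filter] at ha
      exact ha ⟨Finset.mem_univ _, h2⟩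
    obtain ⟨t', ht'⟩ := not_forall.1 h1
    exact (hΦc a t t').trans (pen_bool ht')
  refine hno β (hJ n 2 h H D _ _ (![fun u => E (F 0 u), g]) (insert tw (G.image Φ)) ?_ ?_ ?_ ?_)
  · intro j
    fin_cases j
    · exact hEi.comp (hF1 0)
    · exact hg1
  · intro j j' hj u w
    fin_cases j <;> fin_cases j'
    · exact absurd rfl hj
    · exact ⟨(hgE w _).symm, by rw [hc]; exact hgc w _, hgc w _⟩
    · exact ⟨hgE u _, hgc u _, by rw [hc]; exact hgc u _⟩
    · exact absurd rfl hj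
  · rw [Finset.card_insert_of_notMem, Finset.card_image_of_injective _ hΦi]
    · omega
    · intro hmem
      obtain ⟨a, -, ha⟩ := Finset.mem_image.1 hmem
      rcases a with k | k
      · simp [hΦ, htw] at ha
      · simp [hΦ, htw] at ha
  · intro s hs j u
    rcases Finset.mem_insert.1 hs with rfl | hs
    · fin_cases j
      · exact ⟨htE _, htc _, by rw [hc]; exact htc _⟩
      · have h1 := hAt _ (hg2 u)
        exact ⟨h1.1, h1.2, by rw [hc]; exact h1.2⟩
    · obtain ⟨a, ha, rfl⟩ := Finset.mem_image.1 hs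
      fin_cases j
      · exact ⟨hΦE a _, hGE a ha _, by rw [hc]; exact hGE a ha _⟩
      · have h1 := hΦA a _ (hg2 u)
        exact ⟨h1.1, h1.2, by rw [hc]; exact h1.2⟩

end MP3240M
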