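import Pool.Agent.Lib.MP_3240be_co.M3.Defs

/-!
# Board m3_modules, row RDM: the red copies of `H` are the sets `z m ps`
-/

set_option autoImplicit false

namespace MP3240M

open Finset MP3240T MP3240W
open MP3240N (Sig SP)
open Pool.Agent.Lib.MP_3240be_co.H36 (LocCol)

namespace Rdm

/-- Labels of the red components. -/
inductive Lb (q L : ℕ) (M : Type) : Type
  | w0 : Lb q L M
  | zz : M → (Fin q → Fin L) → Lb q L M

/-- The label of a vertex. -/
def lbl {n h q L τ : ℕ} {I M : Type} : VM n h q L τ I M → Lb q L M
  | .u _ => .w0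
  | .c _ _ _ => .w0
  | .l _ _ _ => .w0
  | .z m ps _ => .zz m ps
  | .t _ _ _ _ => .w0

/-- The kind of a vertex. -/
def knd {n h q L τ : ℕ} {I M : Type} : VM n h q L τ I M → Option (Fin q)
  | .u _ => none
  | .c _ w _ => some w
  | .l _ w _ => some w
  | .z _ _ _ => none
  | .t _ _ _ _ => none

variable {n h N q L τ : ℕ} {I M : Type} {H : SimpleGraph (Fin n)} {x y : Fin n}
  {W : SimpleGraph (Fin q)} {T : Bool × Fin q → SimpleGraph (Fin L)} {kd : Fin N → Fin q}
  {δ : M → SP n N q L → I} {Dk : Fin q → Prop}

theorem lbl_red (a b : VM n h q L τ I M) (h1 : redM W a b)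
    (h2 : relM H x y W T kd δ Dk a b ∨ relM H x y W T kd δ Dk b a) : lbl a = lbl b := by
  rcases a with _ | _ | _ | ⟨m, ps, v⟩ | _ <;> rcases b with _ | _ | _ | ⟨m', ps', v'⟩ | _ <;>
    first
    | rfl
    | exact h1.elim
    | (obtain ⟨h3, h4, -⟩ | ⟨h3, h4, -⟩ := h2
       · show Lb.zz m ps = Lb.zz m' ps'
         rw [h3, h4]
       · show Lb.zz m ps = Lb.zz m' ps'
         rw [h3, h4])

theorem red_of {a b : VM n h q L τ I M}
    (hab : (cls (FM H x y W T kd δ Dk) (cM W) true).Adj a b) :
    (redM W a b ∨ redM W b a) ∧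
      (relM H x y W T kd δ Dk a b ∨ relM H x y W T kd δ Dk b a) := by
  obtain ⟨h1, h2, -⟩ := hab
  refine ⟨?_, ?_⟩
  · unfold cM at h2
    simpa using h2
  · unfold FM at h1
    rw [SimpleGraph.fromRel_adj] at h1
    exact h1.2

theorem lbl_adj {a b : VM n h q L τ I M}
    (hab : (cls (FM H x y W T kd δ Dk) (cM W) true).Adj a b) : lbl a = lbl b := by
  obtain ⟨h1 | h1, h2⟩ := red_of hab
  · exact lbl_red a b h1 h2
  · exact (lbl_red b a h1 h2.symm).symm

/-- The kinds of red edges, in one direction. -/
def Kd (W : SimpleGraph (Fin q)) (Dk : Fin q → Prop) (a b : VM n h q L τ I M) : Prop :=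
  ((∃ k, a = .u k) ∧ ∃ w, knd b = some w) ∨
    (∃ w w', knd a = some w ∧ knd b = some w' ∧ W.Adj w w') ∨
    ((∃ m ps s k, a = .t m ps s k) ∧ ∃ w t, b = .l none w t ∧ Dk w)

theorem red_cases (a b : VM n h q L τ I M) (ha : lbl a = .w0) (h1 : redM W a b)
    (h2 : relM H x y W T kd δ Dk a b ∨ relM H x y W T kd δ Dk b a) : Kd W Dk a b := by
  rcases a with k | ⟨i, w, k⟩ | ⟨i, w, k⟩ | ⟨m, ps, v⟩ | ⟨m, ps, s, k⟩ <;>
    rcases b with k' | ⟨i', w', k'⟩ | ⟨i', w', k'⟩ | ⟨m', ps', v'⟩ | ⟨m', ps', s', k'⟩ <;>
    first
    | exact h1.elim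
    | exact Or.inl ⟨⟨_, rfl⟩, _, rfl⟩
    | exact Or.inr (Or.inl ⟨_, _, rfl, rfl, h1⟩)
    | (cases ha; done)
    | skip
  rcases i' with _ | i'
  · rcases h2 with h2 | h2
    · rcases h2 with ⟨s0, h3, -⟩ | ⟨-, h3⟩
      · unfold lowM at h3
        injection h3 with h4
        cases h4
      · exact Or.inr (Or.inr ⟨⟨m, ps, s, k, rfl⟩, w', k', rfl, h3⟩)
    · exact h2.elim
  · exact h1.elim

/-- A function that is constant along the edges of a connected graph is constant. -/
theorem const_of {n : ℕ} {H : SimpleGraph (Fin n)} (hc : H.Connected) {L : Type} (g : Fin n → L)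
    (hg : ∀ i j, H.Adj i j → g i = g j) (i j : Fin n) : g i = g j := by
  obtain ⟨p⟩ := hc.preconnected i j
  induction p with
  | nil => rfl
  | cons hadj _ ih => exact (hg _ _ hadj).trans ih

/-- At most `h` vertices are mapped to common hubs. -/
theorem card_u (f : Fin n → VM n h q L τ I M)
    (hf : Function.Injective f) (S : Finset (Fin n)) (hS : ∀ i ∈ S, ∃ k, f i = .u k) :
    S.card ≤ h := by
  classical
  by_cases hh : h = 0
  · subst hh
    rw [Nat.le_zero, Finset.card_eq_zero, Finset.eq_empty_iff_forall_notMem]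
    intro i hi
    obtain ⟨k, -⟩ := hS i hi
    exact k.elim0
  · have h0 : 0 < h := Nat.pos_of_ne_zero hh
    let φ : VM n h q L τ I M → Fin h := fun a => match a with
      | .u i => i
      | _ => ⟨0, h0⟩
    calc S.card ≤ (univ : Finset (Fin h)).card := by
          refine Finset.card_le_card_of_injOn (fun i => φ (f i)) (fun _ _ => Finset.mem_univ _) ?_
          intro i hi j hj hij
          obtain ⟨k, hk⟩ := hS i hi
          obtain ⟨k', hk'⟩ := hS j hj
          apply hf
          have h5 : φ (f i) = φ (f j) := hij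
          rw [hk, hk'] at h5
          have h6 : k = k' := h5
          rw [hk, hk', h6]
      _ = h := by rw [Finset.card_univ, Fintype.card_fin]

/-- The colours of the kinds that occur. -/
theorem cols (hW : LocCol W n 2) (f : Fin n → VM n h q L τ I M) :
    ∃ g : Fin q → ℕ, (∀ w, g w < 2) ∧ ∀ i j w w', knd (f i) = some w → knd (f j) = some w' →
      W.Adj w w' → g w ≠ g w' := by
  classical
  let X : Finset (Fin q) := univ.filter (fun w => ∃ i, knd (f i) = some w)
  have hX : ∀ i w, knd (f i) = some w → w ∈ X := fun i w hi =>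
    Finset.mem_filter.2 ⟨Finset.mem_univ _, i, hi⟩
  have hX' : ∀ w ∈ X, ∃ i, knd (f i) = some w := fun w hw => (Finset.mem_filter.1 hw).2
  have hXcard : X.card ≤ n := by
    rcases X.eq_empty_or_nonempty with h0 | ⟨w0, hw0⟩
    · rw [h0, card_empty]
      exact Nat.zero_le _
    · obtain ⟨i0, -⟩ := hX' w0 hw0
      have : Nonempty (Fin n) := ⟨i0⟩
      choose! ix hix using hX'
      calc X.card ≤ (univ : Finset (Fin n)).card := by
            refine Finset.card_le_card_of_injOn ix (fun _ _ => Finset.mem_univ _) ?_
            intro w hw w' hw' e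
            have h1 := hix w hw
            have h2 := hix w' hw'
            have e' : ix w = ix w' := e
            rw [e', h2] at h1
            exact (Option.some.inj h1).symm
        _ = n := by rw [Finset.card_univ, Fintype.card_fin]
  obtain ⟨g, hg, hgX⟩ := hW X hXcard
  exact ⟨g, hg, fun i j w w' h1 h2 h3 => hgX w (hX i w h1) w' (hX j w' h2) h3⟩

end Rdm

open Rdm in
/-- Row RDM. -/
theorem rdm_proof : RdmStatement := by
  classical
  intro n h N q L τ H x y W T kd I M δ Dk hsig hc hW hDk hcase f hinj hf
  obtain ⟨i0⟩ := hc.nonempty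
  have hconst : ∀ i j, lbl (f i) = lbl (f j) :=
    const_of hc (fun i => lbl (f i)) (fun i j hij => lbl_adj (hf i j hij))
  cases hl : lbl (f i0) with
  | w0 =>
    exfalso
    have hl' : ∀ i, lbl (f i) = .w0 := fun i => (hconst i i0).trans hl
    obtain ⟨g, hg, hgX⟩ := cols hW f
    have hred : ∀ i j, H.Adj i j → Kd W Dk (f i) (f j) ∨ Kd W Dk (f j) (f i) := by
      intro i j hij
      obtain ⟨h1 | h1, h2⟩ := red_of (hf i j hij)
      · exact Or.inl (red_cases _ _ (hl' i) h1 h2)
      · exact Or.inr (red_cases _ _ (hl' j) h1 h2.symm)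
    rcases hcase with hno | hstar
    · -- no twins
      have hn1 : ∃ i j, H.Adj i j := by
        by_contra hcon
        push Not at hcon
        have h1 := hsig (fun _ => some 0) (fun i j hij => absurd hij (hcon i j))
        have h2 : (univ.filter (fun x : Fin n => (some (0 : Fin 2) : Option (Fin 2)) = none)) =
            ∅ := by
          ext a
          simp
        simp only [h2, card_empty] at h1
        omega
      have hdeg : ∀ i, ∃ j, H.Adj i j := by
        obtain ⟨a, b, hab⟩ := hn1
        have : Nontrivial (Fin n) := ⟨a, b, hab.ne⟩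
        exact fun i => hc.preconnected.exists_adj_of_nontrivial i
      have hK : ∀ a b : VM n h q L τ I M, Kd W Dk a b →
          ((∃ k, a = .u k) ∧ ∃ w, knd b = some w) ∨
          (∃ w w', knd a = some w ∧ knd b = some w' ∧ W.Adj w w') := by
        intro a b hab
        rcases hab with h1 | h1 | ⟨-, w, t, -, h1⟩
        · exact Or.inl h1
        · exact Or.inr h1
        · exact absurd h1 (hno w)
      let κ : Fin n → Option (Fin 2) := fun i => (knd (f i)).map (fun w => ⟨g w, hg w⟩)
      have hκ : ∀ i j, H.Adj i j → κ i ≠ κ j := by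
        have key : ∀ i j, Kd W Dk (f i) (f j) → κ i ≠ κ j := by
          intro i j hr
          rcases hK _ _ hr with ⟨⟨k, h1⟩, w, h2⟩ | ⟨w, w', h1, h2, h3⟩
          · show (knd (f i)).map _ ≠ (knd (f j)).map _
            rw [h1, h2]
            simp [knd]
          · show (knd (f i)).map _ ≠ (knd (f j)).map _
            rw [h1, h2]
            intro h4
            have h5 : g w = g w' := by simpa using h4
            exact hgX i j w w' h1 h2 h3 h5
        intro i j hij
        rcases hred i j hij with h1 | h1
        · exact key i j h1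
        · exact (key j i h1).symm
      have h1 := hsig κ hκ
      have h2 : (univ.filter (fun x => κ x = none)).card ≤ h := by
        refine card_u f hinj _ ?_
        intro i hi
        have h3 : κ i = none := (Finset.mem_filter.1 hi).2
        have h4 : knd (f i) = none := by
          have h5 : (knd (f i)).map (fun w => (⟨g w, hg w⟩ : Fin 2)) = none := h3
          simpa using h5
        obtain ⟨j, hij⟩ := hdeg i
        rcases hred i j hij with h5 | h5
        · rcases hK _ _ h5 with ⟨⟨k, h6⟩, -⟩ | ⟨w, w', h6, -, -⟩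
          · exact ⟨k, h6⟩
          · rw [h4] at h6
            cases h6
        · rcases hK _ _ h5 with ⟨-, w, h6⟩ | ⟨w, w', -, h6, -⟩
          · rw [h4] at h6
            cases h6
          · rw [h4] at h6
            cases h6
      omega
    · -- twins: `AStar`
      apply hstar
      -- a neighbour of a twin is a low of the pool
      have htw : ∀ i j, H.Adj i j → (∃ m ps s k, f i = .t m ps s k) →
          ∃ w t, f j = .l none w t ∧ Dk w := by
        rintro i j hij ⟨m, ps, s, k, hi⟩
        rcases hred i j hij with h1 | h1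
        · rcases h1 with ⟨⟨k', h2⟩, -⟩ | ⟨w, w', h2, -, -⟩ | ⟨-, w, t, h2, h3⟩
          · rw [hi] at h2
            cases h2
          · rw [hi] at h2
            cases h2
          · exact ⟨w, t, h2, h3⟩
        · rcases h1 with ⟨-, w, h2⟩ | ⟨w, w', -, h2, -⟩ | ⟨-, w, t, h2, -⟩
          · rw [hi] at h2
            cases h2
          · rw [hi] at h2
            cases h2
          · rw [hi] at h2
            cases h2
      have huu : ∀ i j, H.Adj i j → (∃ k, f i = .u k) → ∃ w, knd (f j) = some w := by
        rintro i j hij ⟨k, hi⟩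
        rcases hred i j hij with h1 | h1
        · rcases h1 with ⟨-, w, h2⟩ | ⟨w, w', h2, -, -⟩ | ⟨⟨m, ps, s, k', h2⟩, -⟩
          · exact ⟨w, h2⟩
          · rw [hi] at h2
            cases h2
          · rw [hi] at h2
            cases h2
        · rcases h1 with ⟨-, w, h2⟩ | ⟨w, w', -, h2, -⟩ | ⟨-, w, t, h2, -⟩
          · rw [hi] at h2
            cases h2
          · rw [hi] at h2
            cases h2
          · rw [hi] at h2
            cases h2
      have hkk : ∀ i j, H.Adj i j → ∀ w w', knd (f i) = some w → knd (f j) = some w' →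
          W.Adj w w' := by
        have key : ∀ a b : VM n h q L τ I M, Kd W Dk a b → ∀ w w', knd a = some w →
            knd b = some w' → W.Adj w w' := by
          intro a b hab w w' ha hb
          rcases hab with ⟨⟨k, h2⟩, -⟩ | ⟨w1, w2, h2, h3, h4⟩ | ⟨⟨m, ps, s, k', h2⟩, -⟩
          · rw [h2] at ha
            cases ha
          · rw [ha] at h2
            rw [hb] at h3
            rw [Option.some.inj h2, Option.some.inj h3]
            exact h4
          · rw [h2] at ha
            cases ha
        intro i j hij w w' hi hj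
        rcases hred i j hij with h1 | h1
        · exact key _ _ h1 w w' hi hj
        · exact (key _ _ h1 w' w hj hi).symm
      refine ⟨univ.filter (fun i => ∃ m ps s k, f i = .t m ps s k),
        univ.filter (fun i => ∃ k, f i = .u k),
        fun i => decide (∃ w, knd (f i) = some w ∧ g w = 0), ?_, ?_, ?_, ?_, ?_, ?_⟩
      · intro a ha b hb hab
        obtain ⟨m, ps, s, k, hb'⟩ := (mem_filter.1 hb).2
        obtain ⟨w, t, h1, -⟩ := htw a b hab (mem_filter.1 ha).2
        rw [hb'] at h1
        cases h1
      · intro a ha b hb u v hau hbv huv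
        obtain ⟨w, t, h1, h2⟩ := htw a u hau (mem_filter.1 ha).2
        obtain ⟨w', t', h3, h4⟩ := htw b v hbv (mem_filter.1 hb).2
        exact hDk w w' h2 h4 (hkk u v huv w w' (by rw [h1]; rfl) (by rw [h3]; rfl))
      · intro a ha b hb hab
        obtain ⟨k, hb'⟩ := (mem_filter.1 hb).2
        obtain ⟨w, h1⟩ := huu a b hab (mem_filter.1 ha).2
        rw [hb'] at h1
        cases h1
      · exact card_u f hinj _ (fun i hi => (mem_filter.1 hi).2)
      · intro a ha u hau hu
        obtain ⟨w, t, h1, -⟩ := htw a u hau (mem_filter.1 ha).2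
        obtain ⟨k, h2⟩ := (mem_filter.1 hu).2
        rw [h1] at h2
        cases h2
      · intro u v huv hu hv hu' hv'
        have hk : ∀ i, i ∉ univ.filter (fun i => ∃ m ps s k, f i = .t m ps s k) →
            i ∉ univ.filter (fun i => ∃ k, f i = .u k) → ∃ w, knd (f i) = some w := by
          intro i h1 h2
          have hi := hl' i
          rcases hfi : f i with k | ⟨i', w, k⟩ | ⟨i', w, k⟩ | ⟨m, ps, v⟩ | ⟨m, ps, s, k⟩
          · exact absurd (mem_filter.2 ⟨mem_univ _, k, hfi⟩) h2
          · exact ⟨w, rfl⟩
          · exact ⟨w, rfl⟩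
          · rw [hfi] at hi
            cases hi
          · exact absurd (mem_filter.2 ⟨mem_univ _, m, ps, s, k, hfi⟩) h1
        obtain ⟨w, hw⟩ := hk u hu hu'
        obtain ⟨w', hw'⟩ := hk v hv hv'
        have h1 := hgX u v w w' hw hw' (hkk u v huv w w' hw hw')
        have h2 := hg w
        have h3 := hg w'
        intro h4
        have h5 := decide_eq_decide.1 h4
        have e1 : (∃ w, knd (f u) = some w ∧ g w = 0) ↔ g w = 0 := by
          constructor
          · rintro ⟨w1, h6, h7⟩
            rw [hw] at h6
            rw [Option.some.inj h6]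
            exact h7
          · intro h6
            exact ⟨w, hw, h6⟩
        have e2 : (∃ w, knd (f v) = some w ∧ g w = 0) ↔ g w' = 0 := by
          constructor
          · rintro ⟨w1, h6, h7⟩
            rw [hw'] at h6
            rw [Option.some.inj h6]
            exact h7
          · intro h6
            exact ⟨w', hw', h6⟩
        rw [e1, e2] at h5
        clear e1 e2 h4
        omega
  | zz m ps =>
    refine ⟨m, ps, fun i => ?_⟩
    have hi : lbl (f i) = .zz m ps := (hconst i i0).trans hl
    rcases hfi : f i with k | ⟨i', w, k⟩ | ⟨i', w, k⟩ | ⟨m', ps', v⟩ | ⟨m', ps', s, k⟩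
    · rw [hfi] at hi
      cases hi
    · rw [hfi] at hi
      cases hi
    · rw [hfi] at hi
      cases hi
    · rw [hfi] at hi
      cases hi
      exact ⟨v, rfl⟩
    · rw [hfi] at hi
      cases hi

end MP3240M
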