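import Pool.Agent.Lib.MP_3240be_co.M3.Defs

/-!
# MP_3240be_co, board m3_modules: row RU2 (RULE 2, both cases)
-/

set_option autoImplicit false

namespace MP3240M

open Finset MP3240T MP3240W
open MP3240N (Sig BigC CopyB Homog SP sm plc KN NoCut)
open Pool.Agent.Lib.MP_3240be_co.H36 (LocCol Blow)

namespace Ru2

/-- A nonempty finite set with at most `m` elements is the image of `Fin m`. -/
theorem exists_enum {α : Type} [DecidableEq α] (T : Finset α) (m : ℕ) (hT : T.Nonempty)
    (hc : T.card ≤ m) : ∃ f : Fin m → α, ∀ s ∈ T, ∃ k, f k = s := by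
  obtain ⟨d, hd⟩ := hT
  refine ⟨fun k => if hk : (k : ℕ) < T.card then (T.equivFin.symm ⟨k, hk⟩).1 else d, ?_⟩
  intro s hs
  refine ⟨⟨T.equivFin ⟨s, hs⟩, lt_of_lt_of_le (T.equivFin ⟨s, hs⟩).2 hc⟩, ?_⟩
  have h1 : ((T.equivFin ⟨s, hs⟩ : Fin T.card) : ℕ) < T.card := (T.equivFin ⟨s, hs⟩).2
  simp only
  rw [dif_pos h1]
  simp

/-- `n` different elements of a set with at least `n` elements. -/
theorem exists_inj {α : Type} (T : Finset α) (n : ℕ) (hc : n ≤ T.card) :
    ∃ f : Fin n → α, Function.Injective f ∧ ∀ k, f k ∈ T := by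
  refine ⟨fun k => (T.equivFin.symm ⟨k, lt_of_lt_of_le k.2 hc⟩).1, ?_, fun k => (T.equivFin.symm _).2⟩
  intro k k' hk
  have h1 := T.equivFin.symm.injective (Subtype.ext hk)
  exact Fin.ext (Fin.mk.inj h1)

theorem bne1 : ∀ e b : Bool, e ≠ (!b) → e = b := by decide

theorem bne2 : ∀ e b : Bool, e ≠ b → e = !b := by decide

variable {n h q L N τ : ℕ} {I M : Type} (H : SimpleGraph (Fin n)) (x y : Fin n)
  (W : SimpleGraph (Fin q)) (T : Bool × Fin q → SimpleGraph (Fin L)) (kd : Fin N → Fin q)
  (δ : M → SP n N q L → I) (Dk : Fin q → Prop)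

theorem adj_iff (a b : VM n h q L τ I M) : (FM H x y W T kd δ Dk).Adj a b ↔
    a ≠ b ∧ (relM H x y W T kd δ Dk a b ∨ relM H x y W T kd δ Dk b a) :=
  SimpleGraph.fromRel_adj _ _ _

theorem adj_ul (k : Fin h) (p : Option I) (w : Fin q) (t : Fin L) :
    (FM (τ := τ) H x y W T kd δ Dk).Adj (.u k) (.l p w t) :=
  (adj_iff H x y W T kd δ Dk _ _).2 ⟨by simp, Or.inl trivial⟩

theorem adj_ll (p p' : Option I) (w w' : Fin q) (t t' : Fin L) (hw : W.Adj w w') :
    (FM (h := h) (τ := τ) H x y W T kd δ Dk).Adj (.l p w t) (.l p' w' t') :=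
  (adj_iff H x y W T kd δ Dk _ _).2 ⟨by
    intro he
    injection he with _ h2 _
    exact hw.ne h2, Or.inl (Or.inl hw)⟩

end Ru2

open Ru2

theorem ru2_proof (hF : FrcStatement) (hJ : JoiStatement) (hE : EmaStatement)
    (hP : PenStatement) : Ru2Statement := by
  classical
  intro n h N q L τ b₀ H D x y W T K' kd I M δ Dk pd B c hn1 hnτ hAD hc hno Cs hhst i K b hfine
    m ps σ v Lw θ η hLi hLl hLu hLc hLz hLt hLη
  have hKne : K 0 ≠ K 1 := (hfine.adj 0 1 (by decide)).ne
  have h2c : ∀ j j' : Fin 2, j ≠ j' → (j = 0 ∧ j' = 1) ∨ (j = 1 ∧ j' = 0) := by decide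
  have hcls : ∀ (e : Bool) (s t : VM n h q L τ I M), (FM H x y W T kd δ Dk).Adj s t → c s t = e →
      (cls (FM H x y W T kd δ Dk) c e).Adj s t :=
    fun e s t h1 h2 => ⟨h1, h2, by rw [hc]; exact h2⟩
  -- the edges between the two sets of lows
  have hLL : ∀ j j', j ≠ j' → ∀ a a',
      (cls (FM H x y W T kd δ Dk) c η).Adj (Lw j a) (Lw j' a') := by
    intro j j' hj a a'
    obtain ⟨i1, t1, e1⟩ := hLl j a
    obtain ⟨i2, t2, e2⟩ := hLl j' a'
    refine hcls η _ _ ?_ ?_
    · rw [e1, e2]
      exact adj_ll H x y W T kd δ Dk _ _ _ _ _ _ (hfine.adj j j' hj)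
    · rcases h2c j j' hj with ⟨rfl, rfl⟩ | ⟨rfl, rfl⟩
      · exact hLη a a'
      · rw [hc]
        exact hLη a' a
  have hUL : ∀ k j a, (cls (FM H x y W T kd δ Dk) c b).Adj (.u k) (Lw j a) := by
    intro k j a
    refine hcls b _ _ ?_ (hLu j a k)
    obtain ⟨i1, t1, e1⟩ := hLl j a
    rw [e1]
    exact adj_ul H x y W T kd δ Dk _ _ _ _
  by_cases hηb : η = b
  · -- colour `b` between the lows
    subst hηb
    refine hno η (hJ n 2 h H D (VM n h q L τ I M) (cls (FM H x y W T kd δ Dk) c η) Lw
      (insert (.z m ps v) (univ.image (fun k : Fin h => (.u k : VM n h q L τ I M)))) hLi hLL ?_ ?_)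
    · rw [card_insert_of_notMem, card_image_of_injective, card_univ, Fintype.card_fin]
      · omega
      · intro k k' hkk
        injection hkk
      · intro hm
        obtain ⟨k, _, hk⟩ := mem_image.1 hm
        cases hk
    · intro s hs j a
      rcases mem_insert.1 hs with rfl | hs
      · exact hcls η _ _ (hLz j a).1 (hLz j a).2
      · obtain ⟨k, _, rfl⟩ := mem_image.1 hs
        exact hUL k j a
  · have hη' : η = !b := bne2 _ _ hηb
    subst hη'
    -- at most `h` twins have colour `!b`
    have hfew : (univ.filter (fun k : Fin τ => θ k = !b)).card ≤ h := by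
      by_contra hlt
      refine hno (!b) (hJ n 2 h H D (VM n h q L τ I M) (cls (FM H x y W T kd δ Dk) c (!b)) Lw
        ((univ.filter (fun k : Fin τ => θ k = !b)).image
          (fun k => (.t m ps σ k : VM n h q L τ I M))) hLi hLL ?_ ?_)
      · rw [card_image_of_injective]
        · omega
        · intro k k' hkk
          injection hkk
      · intro s hs j a
        obtain ⟨k, hk, rfl⟩ := mem_image.1 hs
        have h1 := (mem_filter.1 hk).2
        exact hcls (!b) _ _ (hLt j a k).1 ((hLt j a k).2.trans h1)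
    have hmany : n ≤ (univ.filter (fun k : Fin τ => θ k = b)).card := by
      have h1 : (univ : Finset (Fin τ)) ⊆ univ.filter (fun k : Fin τ => θ k = b) ∪
          univ.filter (fun k : Fin τ => θ k = !b) := by
        intro k _
        rw [mem_union, mem_filter, mem_filter]
        by_cases h2 : θ k = b
        · exact Or.inl ⟨mem_univ _, h2⟩
        · exact Or.inr ⟨mem_univ _, bne2 _ _ h2⟩
      have h2 := card_le_card h1
      have h3 := card_union_le (univ.filter (fun k : Fin τ => θ k = b))
        (univ.filter (fun k : Fin τ => θ k = !b))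
      rw [card_univ, Fintype.card_fin] at h2
      omega
    obtain ⟨tw, htwi, htw⟩ := exists_inj _ n hmany
    have htwb : ∀ k, θ (tw k) = b := fun k => (mem_filter.1 (htw k)).2
    rcases hAD with hA | hDk
    · -- Case 1
      obtain ⟨sp, hsp⟩ := exists_enum
        (univ.image (fun p : Fin 2 × Fin n => Lw p.1 p.2)) (sm n 2)
        ⟨Lw 0 ⟨0, by omega⟩, mem_image.2 ⟨(0, ⟨0, by omega⟩), mem_univ _, rfl⟩⟩ (by
          refine card_image_le.trans ?_
          rw [card_univ, Fintype.card_prod, Fintype.card_fin, Fintype.card_fin, sm]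
          omega)
      have hsp' : ∀ j a, ∃ k, sp k = Lw j a := fun j a =>
        hsp _ (mem_image.2 ⟨(j, a), mem_univ _, rfl⟩)
      obtain ⟨Z⟩ := hhst i sp
      obtain ⟨b', hcross, hρ, -, hlast⟩ := hF n h N q L τ 2 b₀ H D x y W T K' kd I M δ Dk pd B c
        le_rfl hc hno Cs i sp Z K (fun _ => true) hfine.adj
      have hbb : b' = b := by
        by_contra hne
        have h1 : b = !b' := bne2 _ _ (Ne.symm hne)
        have h2 := (hρ 0).2
        have h3 := hfine.one 0
        rw [← h1] at h2
        have h4 : ((Cs.s none (K 0)).2 b : ℕ) = 2 := h2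
        omega
      subst hbb
      have hblow : ∀ j : Fin 2, ∃ g : Fin n → Fin b₀, Function.Injective g := by
        intro j
        obtain ⟨F, hF1, _⟩ := (Z.cop true (K j)).2.2.2 b'
        have h1 : ((Cs.s (plc i true) (K j)).2 b' : ℕ) = 1 := (hρ j).1
        exact ⟨F ⟨0, by omega⟩, hF1 _⟩
      choose g hg using hblow
      let J : Bool → Fin 2 := fun j => if j then 1 else 0
      have hJn : ∀ j, J j ≠ J (!j) := by decide
      let E : Bool → Fin n → VM n h q L τ I M := fun j a =>
        .l none (K (J j)) (Z.e true (K (J j)) (g (J j) a))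
      refine hno b' (hE n h H hA (VM n h q L τ I M) (cls (FM H x y W T kd δ Dk) c b') E
        (fun j => Lw (J j)) (fun k => .u k) (fun k => .t m ps σ (tw k)) ?_ ?_ ?_ ?_ ?_ ?_ ?_ ?_ ?_
        ?_ ?_ ?_ ?_)
      · intro j a a' haa
        injection haa with _ _ h3
        exact hg (J j) ((Z.cop true (K (J j))).1.1 h3)
      · exact fun j => hLi (J j)
      · intro k k' hkk
        injection hkk
      · intro k k' hkk
        injection hkk with _ _ _ h4
        exact htwi h4
      · intro a a'
        have hj : J false ≠ J true := hJn false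
        refine hcls b' _ _ ?_ (hcross _ _ hj _ _)
        exact adj_ll H x y W T kd δ Dk _ _ _ _ _ _ (hfine.adj _ _ hj)
      · intro k j a
        refine hcls b' _ _ (adj_ul H x y W T kd δ Dk _ _ _ _) ?_
        have h2 := (Z.cop true (K (J j))).2.1 (g (J j) a) k
        exact h2.trans (hfine.up (J j) k)
      · intro k j a
        exact hUL k (J j) a
      · intro k j a
        exact hcls b' _ _ (hLt (J j) a (tw k)).1 ((hLt (J j) a (tw k)).2.trans (htwb k))
      · intro j a a'
        have hadj : ∀ a'', (FM H x y W T kd δ Dk).Adj (Lw (J j) a)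
            (.l none (K (J (!j))) a'') := by
          intro a''
          obtain ⟨i1, t1, e1⟩ := hLl (J j) a
          rw [e1]
          exact adj_ll H x y W T kd δ Dk _ _ _ _ _ _ (hfine.adj _ _ (hJn j))
        have h1 := hlast (Lw (J j) a) (J (!j)) (by
          intro k hk
          obtain ⟨i1, t1, e1⟩ := hLl (J j) a
          rw [e1] at hk
          cases hk) (by
          intro j' k hk
          obtain ⟨i1, t1, e1⟩ := hLl (J j) a
          rw [e1] at hk
          cases hk) (fun a'' => hadj _)
        push Not at h1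
        obtain ⟨a1, ha1⟩ := h1
        obtain ⟨k, hk⟩ := hsp' (J j) a
        have h2 := Z.spe true (K (J (!j))) k a1 (g (J (!j)) a')
        rw [hk] at h2
        refine hcls b' _ _ (hadj _) ?_
        have h4 : c (Lw (J j) a) (E (!j) a') =
            c (Lw (J j) a) (.l (plc i true) (K (J (!j))) (Z.e true (K (J (!j))) a1)) := h2.symm
        rw [h4]
        exact bne1 _ _ ha1
      · intro j j' a a' he
        obtain ⟨i1, t1, e1⟩ := hLl (J j) a
        rw [e1] at he
        injection he with h1 _ _
        cases h1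
      · intro a a' he
        obtain ⟨i1, t1, e1⟩ := hLl (J false) a
        obtain ⟨i2, t2, e2⟩ := hLl (J true) a'
        rw [e1, e2] at he
        injection he with _ h2 _
        exact hKne h2
      · intro k j a he
        cases he
      · intro k k' he
        cases he
    · -- Case 2
      refine hP n h N q L τ b₀ H D x y W T K' kd I M δ Dk pd B c hc hno Cs hhst i K b hfine 0 m ps σ
        (tw ⟨0, by omega⟩) (univ.image (Lw 0)) (hDk _) ?_ ?_ ?_ ?_ ?_
      · intro a ha
        obtain ⟨a', _, rfl⟩ := mem_image.1 ha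
        exact hLl 0 a'
      · intro a ha k
        obtain ⟨a', _, rfl⟩ := mem_image.1 ha
        exact hLu 0 a' k
      · intro a ha k
        obtain ⟨a', _, rfl⟩ := mem_image.1 ha
        exact hLc 0 a' k
      · intro a ha
        obtain ⟨a', _, rfl⟩ := mem_image.1 ha
        exact ⟨(hLt 0 a' _).1, (hLt 0 a' _).2.trans (htwb _)⟩
      · rw [card_image_of_injective _ (hLi 0), card_univ, Fintype.card_fin]

end MP3240M
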