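import Pool.Agent.Lib.MP_3240be_co.M3.Arm
import Pool.Agent.Lib.MP_3240be_co.M3.Blm
import Pool.Agent.Lib.MP_3240be_co.M3.Cla
import Pool.Agent.Lib.MP_3240be_co.M3.Crm
import Pool.Agent.Lib.MP_3240be_co.M3.Em1
import Pool.Agent.Lib.MP_3240be_co.M3.Ema
import Pool.Agent.Lib.MP_3240be_co.M3.Fin
import Pool.Agent.Lib.MP_3240be_co.M3.Frc
import Pool.Agent.Lib.MP_3240be_co.M3.Gam
import Pool.Agent.Lib.MP_3240be_co.M3.Hst
import Pool.Agent.Lib.MP_3240be_co.M3.Joi
import Pool.Agent.Lib.MP_3240be_co.M3.Key
import Pool.Agent.Lib.MP_3240be_co.M3.Kw2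
import Pool.Agent.Lib.MP_3240be_co.M3.Mnm
import Pool.Agent.Lib.MP_3240be_co.M3.Nfm
import Pool.Agent.Lib.MP_3240be_co.M3.Pen
import Pool.Agent.Lib.MP_3240be_co.M3.Ram
import Pool.Agent.Lib.MP_3240be_co.M3.Rdm
import Pool.Agent.Lib.MP_3240be_co.M3.Ru1
import Pool.Agent.Lib.MP_3240be_co.M3.Ru2
import Pool.Agent.Lib.MP_3240be_co.M64.Clo
import Pool.Agent.Lib.MP_3240be_co.N49.Final

/-!
# MP_3240be_co: Theorem M (2-connected graphs of chromatic number 3), assembled
-/

set_option autoImplicit false

namespace MP3240M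

open Finset MP3240T MP3240W MP3240WC
open Pool.Agent.Lib.MP_3240be_co.H36.Chrom (ArrowsT iso_of_le)

theorem mnm_main : MnmStatement :=
  mnm_proof
    (arm_proof cla_proof hst_proof (fine_proof (frc_proof key_proof))
      (ru1_proof (frc_proof key_proof) em1_proof)
      (ru2_proof (frc_proof key_proof) joi_proof ema_proof
        (pen_proof (frc_proof key_proof) joi_proof)))
    (nfm_proof rdm_proof (blm_proof pc2_proof gam_proof))
    MP3240N.grp_proof MP3240N.hb_proof (kw2_proof MP3240N.kw_proof) ram_proof hyp_proof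

/-- **Theorem M.** A 2-connected graph with chromatic number `3` is separated (a graph which is
Ramsey for the one and not for the other, in the sense of `CrmStatement`) from every larger
connected graph which contains it. -/
theorem crm_main : CrmStatement :=
  crm_proof mnm_main MP3240N.crn_main clo_main two_proof

end MP3240M
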