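import Pool.Agent.Lib.MP_3240be_co.M3.Defs

/-!
# MP_3240be_co, board m3_modules, row ARM: the host is Ramsey for `H`
-/

set_option autoImplicit false

namespace MP3240M

open Finset MP3240T MP3240W
open MP3240N (Sig BigC CopyB Homog SP sm plc KN NoCut)
open Pool.Agent.Lib.MP_3240be_co.H36 (LocCol Blow)
open Pool.Agent.Lib.MP_3240be_co.H36.Chrom (Sparse Leaf)

namespace Arm

theorem bne2 : ∀ e b : Bool, e ≠ b → e = !b := by decide

/-- In a sparse hypergraph two hyperedges share at most one point. -/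
theorem linear {T V M : Type} {g : ℕ} (hg : 2 ≤ g) {δ : M → T → V} (hs : Sparse g δ) {m m' : M}
    (hm : m ≠ m') {a b a' b' : T} (h1 : δ m a = δ m' a') (h2 : δ m b = δ m' b') :
    δ m a = δ m b := by
  classical
  obtain ⟨m1, hm1, m2, hm2, hne, hl1, hl2⟩ := hs {m, m'} (by rw [card_pair hm])
    (by rw [card_pair hm]; exact hg)
  have key : Leaf δ {m, m'} m := by
    rcases mem_insert.1 hm1 with e1 | e1
    · exact e1 ▸ hl1
    · rcases mem_insert.1 hm2 with e2 | e2
      · exact e2 ▸ hl2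
      · exact absurd ((mem_singleton.1 e1).trans (mem_singleton.1 e2).symm) hne
  exact key m' (by simp) m' (by simp) hm.symm hm.symm a a' b b' h1 h2

variable {n h q L N τ : ℕ} {I M : Type} (H : SimpleGraph (Fin n)) (x y : Fin n)
  (W : SimpleGraph (Fin q)) (T : Bool × Fin q → SimpleGraph (Fin L)) (kd : Fin N → Fin q)
  (δ : M → SP n N q L → I) (Dk : Fin q → Prop)

theorem adj_iff (a b : VM n h q L τ I M) : (FM H x y W T kd δ Dk).Adj a b ↔
    a ≠ b ∧ (relM H x y W T kd δ Dk a b ∨ relM H x y W T kd δ Dk b a) :=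
  SimpleGraph.fromRel_adj _ _ _

theorem adj_z_z (m : M) (ps : Fin q → Fin L) {v v' : Fin n} (hv : H.Adj v v') :
    (FM (h := h) (τ := τ) H x y W T kd δ Dk).Adj (.z m ps v) (.z m ps v') :=
  (adj_iff H x y W T kd δ Dk _ _).2 ⟨by
    intro he
    injection he with _ _ h2
    exact hv.ne h2, Or.inl ⟨rfl, rfl, hv⟩⟩

theorem adj_z_l (m : M) (ps : Fin q → Fin L) {v : Fin n} {t : Slot n N} (hv : zAdj H x y v t) :
    (FM (h := h) (τ := τ) H x y W T kd δ Dk).Adj (.z m ps v) (lowM kd δ m t ps) :=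
  (adj_iff H x y W T kd δ Dk _ _).2 ⟨by simp [lowM], Or.inl ⟨t, rfl, hv⟩⟩

theorem adj_t_l (m : M) (ps : Fin q → Fin L) {s : Fin n × Fin n × Fin n} {t : Slot n N}
    (k : Fin τ) (hv : twAdj H x y s t) :
    (FM (h := h) (τ := τ) H x y W T kd δ Dk).Adj (.t m ps s k) (lowM kd δ m t ps) :=
  (adj_iff H x y W T kd δ Dk _ _).2 ⟨by simp [lowM], Or.inl (Or.inl ⟨t, rfl, hv⟩)⟩

theorem adj_l_l (hδ : ∀ m, Function.Injective (δ m)) (m : M) (ps : Fin q → Fin L)
    {t t' : Slot n N} (htt : blobAdj H x y t t') :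
    (FM (h := h) (τ := τ) H x y W T kd δ Dk).Adj (lowM kd δ m t ps) (lowM kd δ m t' ps) :=
  (adj_iff H x y W T kd δ Dk _ _).2 ⟨by
    intro he
    unfold lowM at he
    injection he with h1 _ _
    have h2 := congrArg Prod.fst (hδ m (Option.some_injective _ h1))
    simp only at h2
    rw [h2] at htt
    exact H.loopless.irrefl _ htt.2.2.2.2.2, Or.inl (Or.inr (Or.inr ⟨m, ps, t, t', rfl, rfl, htt⟩))⟩

/-- The copy of `H` in a blob of colour `e`. -/
theorem blob (hδ : ∀ m, Function.Injective (δ m)) (hxy : H.Adj x y)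
    (c : VM n h q L τ I M → VM n h q L τ I M → Bool) (hc : ∀ x y, c x y = c y x) (e : Bool)
    (m : M) (ps : Fin q → Fin L) (v v' : Fin n) (hvv : H.Adj v v') (ν : Fin N)
    (hz : c (.z m ps v) (.z m ps v') = e)
    (h1 : ∀ w, (w ≠ x ∧ w ≠ y) → H.Adj x w → c (.z m ps v) (lowM kd δ m (v, v', ν, w) ps) = e)
    (h2 : ∀ w, (w ≠ x ∧ w ≠ y) → H.Adj y w → c (.z m ps v') (lowM kd δ m (v, v', ν, w) ps) = e)
    (h3 : ∀ t t' : Slot n N, t.2.2.1 = ν → blobAdj H x y t t' →
      c (lowM kd δ m t ps) (lowM kd δ m t' ps) = e) :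
    Emb H (cls (FM H x y W T kd δ Dk) c e) := by
  classical
  let lw : Fin n → VM n h q L τ I M := fun w => lowM kd δ m (v, v', ν, w) ps
  let f : Fin n → VM n h q L τ I M := fun w =>
    if w = x then .z m ps v else if w = y then .z m ps v' else lw w
  have hfx : f x = .z m ps v := if_pos rfl
  have hfy : f y = .z m ps v' := by
    show (if y = x then _ else if y = y then _ else _) = _
    rw [if_neg hxy.ne.symm, if_pos rfl]
  have hfw : ∀ w, w ≠ x → w ≠ y → f w = lw w := by
    intro w h1 h2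
    show (if w = x then _ else if w = y then _ else _) = _
    rw [if_neg h1, if_neg h2]
  have key : ∀ i j', H.Adj i j' → (FM H x y W T kd δ Dk).Adj (f i) (f j') ∧
      c (f i) (f j') = e := by
    intro i j' hij
    by_cases hix : i = x
    · subst hix
      by_cases hjy : j' = y
      · subst hjy
        rw [hfx, hfy]
        exact ⟨adj_z_z H _ _ W T kd δ Dk m ps hvv, hz⟩
      · have hjx : j' ≠ i := hij.ne.symm
        rw [hfx, hfw j' hjx hjy]
        exact ⟨adj_z_l H _ _ W T kd δ Dk m ps ⟨hvv, ⟨hjx, hjy⟩, Or.inl ⟨rfl, hij⟩⟩,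
          h1 j' ⟨hjx, hjy⟩ hij⟩
    · by_cases hiy : i = y
      · subst hiy
        by_cases hjx : j' = x
        · subst hjx
          rw [hfx, hfy]
          exact ⟨(adj_z_z H _ _ W T kd δ Dk m ps hvv).symm, (hc _ _).trans hz⟩
        · have hjy : j' ≠ i := hij.ne.symm
          rw [hfy, hfw j' hjx hjy]
          exact ⟨adj_z_l H _ _ W T kd δ Dk m ps ⟨hvv, ⟨hjx, hjy⟩, Or.inr ⟨rfl, hij⟩⟩,
            h2 j' ⟨hjx, hjy⟩ hij⟩
      · rw [hfw i hix hiy]
        by_cases hjx : j' = x
        · subst hjx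
          rw [hfx]
          exact ⟨(adj_z_l H _ _ W T kd δ Dk m ps
              ⟨hvv, ⟨hix, hiy⟩, Or.inl ⟨rfl, hij.symm⟩⟩).symm,
            (hc _ _).trans (h1 i ⟨hix, hiy⟩ hij.symm)⟩
        · by_cases hjy : j' = y
          · subst hjy
            rw [hfy]
            exact ⟨(adj_z_l H _ _ W T kd δ Dk m ps
                ⟨hvv, ⟨hix, hiy⟩, Or.inr ⟨rfl, hij.symm⟩⟩).symm,
              (hc _ _).trans (h2 i ⟨hix, hiy⟩ hij.symm)⟩
          · rw [hfw j' hjx hjy]
            have h4 : blobAdj (N := N) H x y (v, v', ν, i) (v, v', ν, j') :=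
              ⟨rfl, rfl, rfl, ⟨hix, hiy⟩, ⟨hjx, hjy⟩, hij⟩
            exact ⟨adj_l_l H x y W T kd δ Dk hδ m ps h4, h3 _ _ rfl h4⟩
  refine ⟨f, ?_, fun i j' hij => ⟨(key i j' hij).1, (key i j' hij).2,
    (hc _ _).trans (key i j' hij).2⟩⟩
  have hlw : Function.Injective lw := by
    intro w w' hww
    have e0 : lowM kd δ m (v, v', ν, w) ps =
      (lowM kd δ m (v, v', ν, w') ps : VM n h q L τ I M) := hww
    unfold lowM at e0
    injection e0 with e1 _ _
    have e2 := congrArg Prod.fst (hδ m (Option.some_injective _ e1))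
    exact congrArg (fun p => p.2.2.2) e2
  intro i i' hij
  by_cases hix : i = x
  · by_cases hjx : i' = x
    · rw [hix, hjx]
    · by_cases hjy : i' = y
      · rw [hix, hjy, hfx, hfy] at hij
        injection hij with _ _ e
        exact absurd e hvv.ne
      · rw [hix, hfx, hfw i' hjx hjy] at hij
        cases hij
  · by_cases hiy : i = y
    · by_cases hjx : i' = x
      · rw [hiy, hjx, hfx, hfy] at hij
        injection hij with _ _ e
        exact absurd e.symm hvv.ne
      · by_cases hjy : i' = y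
        · rw [hiy, hjy]
        · rw [hiy, hfy, hfw i' hjx hjy] at hij
          cases hij
    · by_cases hjx : i' = x
      · rw [hjx, hfx, hfw i hix hiy] at hij
        cases hij
      · by_cases hjy : i' = y
        · rw [hjy, hfy, hfw i hix hiy] at hij
          cases hij
        · rw [hfw i hix hiy, hfw i' hjx hjy] at hij
          exact hlw hij

end Arm

open Arm

theorem arm_proof (hCla : ClaStatement) (hHst : HstStatement) (hFine : FineStatement)
    (hRu1 : Ru1Statement) (hRu2 : Ru2Statement) : ArmStatement := by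
  classical
  intro n h N q L τ N₀ b₀ H D x y W T K' kd cp I M hI hM δ Dk pd B hb₀ hnτ hN₀ hAD hxy hkd hcp
    hRam hW hHom hB hδ hsp hhyp c hc
  by_contra hcon
  have hno : ∀ b, ¬ Emb H (cls (FM H x y W T kd δ Dk) c b) := fun b hb => hcon ⟨b, hb⟩
  have hMf : Fintype M := Fintype.ofFinite M
  have hn2 : 2 ≤ n := by
    have h1 := x.isLt
    have h2 := y.isLt
    have h3 : x.val ≠ y.val := fun e => hxy.ne (Fin.ext e)
    omega
  have hnn : 2 ≤ n * n := by nlinarith
  obtain ⟨Cs⟩ := hCla n h N q L τ 2 b₀ H D x y W T K' kd I M δ Dk pd B c (by omega) hb₀ hHom hB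
    hc hno
  have hst : ∀ (i : I) (S : Fin (sm n 2) → VM n h q L τ I M), Nonempty (Hst Cs i S) :=
    fun i S => hHst n h q L τ 2 b₀ T K' I M pd B c hHom Cs i S
  have ru1 := hRu1 n h N q L τ 2 b₀ H D x y W T K' kd I M δ Dk pd B c le_rfl hc hno Cs hst
  let lab : I → Fin q → QM 2 h × Fin L := fun i w => (Cs.s (some i) w, Cs.ps (some i) w)
  let pos : I → Fin q → Fin L := fun i w => Cs.ps (some i) w
  -- the bad hyperedges
  let badw : I → Fin q → Finset M := fun i w => univ.filter (fun m =>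
    (∀ t t', lab (δ m t) = lab (δ m t')) ∧ ∃ (K : Fin 2 → Fin q) (b : Bool) (j0 : Fin 2),
      Fine W Cs i K b ∧ K j0 = w ∧ ∃ t, δ m (t, pos i) = i ∧ kd t.2.2.1 = w ∧
        ∃ t', blobAdj H x y t t' ∧ c (lowM kd δ m t (pos i)) (lowM kd δ m t' (pos i)) = b)
  have hbadw : ∀ i w, (badw i w).card ≤ n := by
    intro i w
    by_contra hlt
    have hne : (badw i w).Nonempty := card_pos.1 (by omega)
    obtain ⟨m0, hm0⟩ := hne
    obtain ⟨_, K, b, j0, hK, hKw, _⟩ := (mem_filter.1 hm0).2
    have h1 : ∀ m : {m // m ∈ badw i w}, ∃ t, δ m.1 (t, pos i) = i ∧ kd t.2.2.1 = w ∧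
        ∃ t', blobAdj H x y t t' ∧
          c (lowM kd δ m.1 t (pos i)) (lowM kd δ m.1 t' (pos i)) = b := by
      intro m
      obtain ⟨_, K1, b1, j1, hK1, hKw1, t, h2, h3, t', h4, h5⟩ := (mem_filter.1 m.2).2
      have hbb : b1 = b := by
        by_contra hne
        have e1 := hK.one j0
        have e2 := hK1.one j1
        have e3 := Cs.two none w
        rw [hKw] at e1
        rw [hKw1] at e2
        have e4 := bne2 _ _ hne
        rw [e4] at e2
        cases b with
        | true =>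
          simp only [Bool.not_true] at e2
          omega
        | false =>
          simp only [Bool.not_false] at e2
          omega
      exact ⟨t, h2, h3, t', h4, h5.trans hbb⟩
    choose t ht hk t' ht1 ht2 using h1
    have hk' : ∀ m, kd (t' m).2.2.1 = w := by
      intro m
      rw [← (ht1 m).2.2.1]
      exact hk m
    have hlow : ∀ m, lowM kd δ m.1 (t m) (pos i) =
        (.l (some i) w (pos i w) : VM n h q L τ I M) := by
      intro m
      simp only [lowM, ht m, hk m]
    have hlow' : ∀ m, lowM kd δ m.1 (t' m) (pos i) =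
        (.l (some (δ m.1 (t' m, pos i))) w (pos i w) : VM n h q L τ I M) := by
      intro m
      simp only [lowM, hk' m]
    let S : Finset (VM n h q L τ I M) := univ.image (fun m => lowM kd δ m.1 (t' m) (pos i))
    have hScard : n ≤ S.card := by
      rw [card_image_of_injective, card_univ, Fintype.card_coe]
      · omega
      · intro m m' hmm
        by_contra hne
        have hne' : m.1 ≠ m'.1 := fun e => hne (Subtype.ext e)
        have hmm' : lowM kd δ m.1 (t' m) (pos i) =
            (lowM kd δ m'.1 (t' m') (pos i) : VM n h q L τ I M) := hmm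
        rw [hlow' m, hlow' m'] at hmm'
        injection hmm' with e1 _ _
        have e2 := Option.some_injective _ e1
        have h4 := linear hnn hsp hne' (a := (t m, pos i)) (a' := (t m', pos i))
          (b := (t' m, pos i)) (b' := (t' m', pos i)) ((ht m).trans (ht m').symm) e2
        have h5 := congrArg Prod.fst (hδ _ h4)
        simp only at h5
        have h6 := ht1 m
        rw [h5] at h6
        exact H.loopless.irrefl _ h6.2.2.2.2.2
    refine ru1 i K b hK i w (pos i w) j0 S ?_ ?_ ?_ ?_ hScard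
    · intro j hj
      rw [← hKw]
      exact hK.adj j0 j (Ne.symm hj)
    · intro a ha
      obtain ⟨m, _, rfl⟩ := mem_image.1 ha
      refine ⟨δ m.1 (t' m, pos i), pos i w, ?_⟩
      rw [hKw]
      exact hlow' m
    · intro a ha k
      obtain ⟨m, _, rfl⟩ := mem_image.1 ha
      have e1 := ((mem_filter.1 m.2).2.1 (t m, pos i) (t' m, pos i)).symm
      rw [ht m] at e1
      have e2 := congrFun e1 w
      have e3 := congrArg Prod.fst e2
      have e4 := congrArg Prod.snd e2
      simp only [lab] at e3 e4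
      have e5 := Cs.hps (some (δ m.1 (t' m, pos i))) w k
      have e6 := hK.ui j0 k
      rw [hKw] at e6
      rw [e3, e4, e6] at e5
      show c (.u k) (lowM kd δ m.1 (t' m) (pos i)) = b
      rw [hlow' m]
      exact e5
    · intro a ha
      obtain ⟨m, _, rfl⟩ := mem_image.1 ha
      have e1 := adj_l_l (h := h) (τ := τ) H x y W T kd δ Dk hδ m.1 (pos i) (ht1 m)
      have e2 := ht2 m
      rw [hlow m] at e1 e2
      exact ⟨e1, e2⟩
  obtain ⟨m, hm1, hm2⟩ := hhyp lab (fun i => univ.biUnion (fun w => badw i w)) (fun i => by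
    refine (card_biUnion_le).trans ?_
    refine (sum_le_card_nsmul _ _ n (fun w _ => hbadw i w)).trans ?_
    rw [card_univ, Fintype.card_fin, smul_eq_mul])
  -- the label of `m`
  obtain ⟨w0⟩ : Nonempty (Fin q) := by
    obtain ⟨e, _⟩ := hW (fun _ => (fun _ => true, fun _ => true, fun _ _ _ _ _ => true,
      fun _ _ _ => true))
    exact ⟨e 0⟩
  let t0 : SP n N q L := ((x, x, cp w0 ⟨0, by omega⟩, x), fun w => Cs.ps none w)
  let i1 : I := δ m t0
  let ps0 : Fin q → Fin L := pos i1
  have hlab : ∀ t, lab (δ m t) = lab i1 := fun t => hm1 t t0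
  have hs1 : ∀ t w, Cs.s (some (δ m t)) w = Cs.s (some i1) w := fun t w =>
    congrArg Prod.fst (congrFun (hlab t) w)
  have hp1 : ∀ t w, Cs.ps (some (δ m t)) w = Cs.ps (some i1) w := fun t w =>
    congrArg Prod.snd (congrFun (hlab t) w)
  have hpos : ∀ t, pos (δ m t) = ps0 := fun t => funext (fun w => hp1 t w)
  obtain ⟨K, hKadj, hKc, hKp, hKq⟩ := hW (fun w => ((Cs.s (some i1) w).1.1, (Cs.s none w).1.1,
    (fun v v1 v2 a u => c (.z m ps0 v) (lowM kd δ m (v1, v2, cp w a, u) ps0)),
    fun σ k a => c (.t m ps0 σ k) (lowM kd δ m (σ.1, σ.2.1, cp w a, σ.2.2) ps0)))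
  obtain ⟨Z⟩ := hst i1 (fun _ => .z m ps0 x)
  have hK1 : ∀ j j', (Cs.s (some i1) (K j)).1.1 = (Cs.s (some i1) (K j')).1.1 := fun j j' =>
    (Prod.ext_iff.1 (hKc j j')).1
  have hK2 : ∀ j j', (Cs.s none (K j)).1.1 = (Cs.s none (K j')).1.1 := fun j j' =>
    (Prod.ext_iff.1 (Prod.ext_iff.1 (hKc j j')).2).1
  obtain ⟨b, hK⟩ := hFine n h N q L τ 2 b₀ H D x y W T K' kd I M δ Dk pd B c le_rfl hb₀ hc hno Cs
    i1 _ Z K hKadj hKp hKq hK1 hK2
  have hKt : ∀ t, Fine W Cs (δ m t) K b := fun t =>
    { adj := hK.adj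
      pad := hK.pad
      pne := hK.pne
      ui := fun j k => by rw [hs1 t]; exact hK.ui j k
      up := hK.up
      ci := fun j k => by rw [hs1 t]; exact hK.ci j k
      cq := hK.cq
      one := hK.one }
  have hzc : ∀ j j' v v1 v2 a u, c (.z m ps0 v) (lowM kd δ m (v1, v2, cp (K j) a, u) ps0) =
      c (.z m ps0 v) (lowM kd δ m (v1, v2, cp (K j') a, u) ps0) := fun j j' v v1 v2 a u =>
    congrFun (congrFun (congrFun (congrFun (congrFun (congrArg (fun p => p.2.2.1) (hKc j j')) v)
      v1) v2) a) u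
  have htc : ∀ j j' σ k a, c (.t m ps0 σ k) (lowM kd δ m (σ.1, σ.2.1, cp (K j) a, σ.2.2) ps0) =
      c (.t m ps0 σ k) (lowM kd δ m (σ.1, σ.2.1, cp (K j') a, σ.2.2) ps0) := fun j j' σ k a =>
    congrFun (congrFun (congrFun (congrArg (fun p => p.2.2.2) (hKc j j')) σ) k) a
  have hblue : ∀ j t t', kd t.2.2.1 = K j → blobAdj H x y t t' →
      c (lowM kd δ m t ps0) (lowM kd δ m t' ps0) = !b := by
    intro j t t' hkt htt
    apply bne2
    intro hcol
    apply hm2 (t, ps0)
    refine mem_biUnion.2 ⟨K j, mem_univ _, mem_filter.2 ⟨mem_univ _, hm1, K, b, j, hKt _, rfl, t,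
      ?_, hkt, t', htt, ?_⟩⟩
    · rw [hpos]
    · rw [hpos]
      exact hcol
  -- the colours of the hubs at the lows of the gadget
  have hucol : ∀ j t k, kd t.2.2.1 = K j → c (.u k) (lowM kd δ m t ps0) = b := by
    intro j t k hkt
    have e5 := Cs.hps (some (δ m (t, ps0))) (K j) k
    rw [hs1, hp1, hK.ui j k] at e5
    unfold lowM
    rw [hkt]
    exact e5
  have hccol : ∀ j t k, kd t.2.2.1 = K j →
      c (.c none (pd (K j)) k) (lowM kd δ m t ps0) = b := by
    intro j t k hkt
    have e5 := Cs.hpc (some (δ m (t, ps0))) (K j) k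
    rw [hs1, hp1, hK.ci j k] at e5
    unfold lowM
    rw [hkt]
    exact e5
  have hred : ∀ v v', H.Adj v v' → c (.z m ps0 v) (.z m ps0 v') = b := by
    intro v v' hvv
    by_contra hne
    have hne' := bne2 _ _ hne
    -- every blob has an edge of colour `b` at a free vertex
    have h1 : ∀ ν : Fin N₀, ∃ p : Fin n × Bool, (p.1 ≠ x ∧ p.1 ≠ y) ∧
        (if p.2 then H.Adj y p.1 ∧ c (.z m ps0 v') (lowM kd δ m (v, v', cp (K 0) ν, p.1) ps0) = b
        else H.Adj x p.1 ∧ c (.z m ps0 v) (lowM kd δ m (v, v', cp (K 0) ν, p.1) ps0) = b) := by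
      intro ν
      by_contra hall
      refine hno (!b) (blob H x y W T kd δ Dk hδ hxy c hc (!b) m ps0 v v' hvv (cp (K 0) ν) hne'
        ?_ ?_ ?_)
      · intro w hw hxw
        apply bne2
        intro e
        exact hall ⟨(w, false), hw, by
          rw [if_neg (by simp)]
          exact ⟨hxw, e⟩⟩
      · intro w hw hyw
        apply bne2
        intro e
        exact hall ⟨(w, true), hw, by
          rw [if_pos rfl]
          exact ⟨hyw, e⟩⟩
      · intro t t' ht htt
        refine hblue 0 t t' ?_ htt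
        rw [ht]
        exact hkd _ _
    choose p hp1' hp2 using h1
    let wν : Fin N₀ → Fin n := fun ν => (p ν).1
    obtain ⟨e, e', kk, β, he, he', hf, hf', hη⟩ := hRam
      (fun ν => ((p ν).1, (p ν).2, fun k =>
        c (.t m ps0 (v, v', (p ν).1) k) (lowM kd δ m (v, v', cp (K 0) ν, (p ν).1) ps0)))
      (fun ν ν' => c (lowM kd δ m (v, v', cp (K 0) ν, (p ν).1) ps0)
        (lowM kd δ m (v, v', cp (K 1) ν', (p ν').1) ps0))
    obtain ⟨w, ee, θ⟩ := kk
    have hw1 : ∀ a, (p (e a)).1 = w := fun a => congrArg (fun r => r.1) (hf a)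
    have hw2 : ∀ a, (p (e' a)).1 = w := fun a => congrArg (fun r => r.1) (hf' a)
    have he1 : ∀ a, (p (e a)).2 = ee := fun a => congrArg (fun r => r.2.1) (hf a)
    have he2 : ∀ a, (p (e' a)).2 = ee := fun a => congrArg (fun r => r.2.1) (hf' a)
    have hθ1 : ∀ a k, c (.t m ps0 (v, v', w) k) (lowM kd δ m (v, v', cp (K 0) (e a), w) ps0) =
        θ k := by
      intro a k
      have h2 := congrFun (congrArg (fun r => r.2.2) (hf a)) k
      simp only [hw1 a] at h2
      exact h2
    have hθ2 : ∀ a k, c (.t m ps0 (v, v', w) k) (lowM kd δ m (v, v', cp (K 0) (e' a), w) ps0) =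
        θ k := by
      intro a k
      have h2 := congrFun (congrArg (fun r => r.2.2) (hf' a)) k
      simp only [hw2 a] at h2
      exact h2
    have hηβ : ∀ a a', c (lowM kd δ m (v, v', cp (K 0) (e a), w) ps0)
        (lowM kd δ m (v, v', cp (K 1) (e' a'), w) ps0) = β := by
      intro a a'
      have h2 := hη a a'
      simp only [hw1 a, hw2 a'] at h2
      exact h2
    let n0 : Fin n := ⟨0, by omega⟩
    have hwin : w ≠ x ∧ w ≠ y := by
      have h2 := hp1' (e n0)
      rwa [hw1] at h2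
    let vz : Fin n := if ee then v' else v
    have hzadj : ∀ ν : Fin N, zAdj H x y vz ((v, v', ν, w) : Slot n N) := by
      intro ν
      have h2 := hp2 (e n0)
      rw [hw1, he1] at h2
      refine ⟨hvv, hwin, ?_⟩
      show ((if ee then v' else v) = v ∧ H.Adj x w) ∨ ((if ee then v' else v) = v' ∧ H.Adj y w)
      cases ee with
      | true =>
        rw [if_pos rfl] at h2 ⊢
        exact Or.inr ⟨rfl, h2.1⟩
      | false =>
        rw [if_neg (by simp)] at h2 ⊢
        exact Or.inl ⟨rfl, h2.1⟩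
    have hzcol : ∀ ν, (p ν).1 = w → (p ν).2 = ee →
        c (.z m ps0 vz) (lowM kd δ m (v, v', cp (K 0) ν, w) ps0) = b := by
      intro ν h3 h4
      have h2 := hp2 ν
      rw [h3, h4] at h2
      show c (.z m ps0 (if ee then v' else v)) _ = b
      cases ee with
      | true =>
        rw [if_pos rfl] at h2 ⊢
        exact h2.2
      | false =>
        rw [if_neg (by simp)] at h2 ⊢
        exact h2.2
    let ef : Fin 2 → Fin n → Fin N₀ := fun j a => if j = 0 then e a else e' a
    have hef0 : ∀ a, ef 0 a = e a := fun a => if_pos rfl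
    have hef1 : ∀ a, ef 1 a = e' a := fun a => if_neg (by decide)
    have hj2 : ∀ j : Fin 2, j = 0 ∨ j = 1 := by decide
    have hefi : ∀ j, Function.Injective (ef j) := by
      intro j a a' haa
      rcases hj2 j with rfl | rfl
      · rw [hef0, hef0] at haa
        exact he haa
      · rw [hef1, hef1] at haa
        exact he' haa
    let Lw : Fin 2 → Fin n → VM n h q L τ I M := fun j a =>
      lowM kd δ m (v, v', cp (K j) (ef j a), w) ps0
    refine hRu2 n h N q L τ b₀ H D x y W T K' kd I M δ Dk pd B c (by omega) hnτ hAD hc hno Cs hst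
      i1 K b hK m ps0 (v, v', w) vz Lw θ β ?_ ?_ ?_ ?_ ?_ ?_ ?_
    · intro j a a' haa
      have e0 : lowM kd δ m (v, v', cp (K j) (ef j a), w) ps0 =
        (lowM kd δ m (v, v', cp (K j) (ef j a'), w) ps0 : VM n h q L τ I M) := haa
      unfold lowM at e0
      injection e0 with e1 _ _
      have e2 := congrArg Prod.fst (hδ m (Option.some_injective _ e1))
      have e5 : cp (K j) (ef j a) = cp (K j) (ef j a') := congrArg (fun p => p.2.2.1) e2
      exact hefi j (hcp _ e5)
    · intro j a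
      refine ⟨δ m ((v, v', cp (K j) (ef j a), w), ps0), ps0 (K j), ?_⟩
      show lowM kd δ m (v, v', cp (K j) (ef j a), w) ps0 = _
      simp only [lowM, hkd]
    · intro j a k
      exact hucol j _ k (hkd _ _)
    · intro j a k
      exact hccol j _ k (hkd _ _)
    · intro j a
      refine ⟨adj_z_l H x y W T kd δ Dk m ps0 (hzadj _), ?_⟩
      show c (.z m ps0 vz) (lowM kd δ m (v, v', cp (K j) (ef j a), w) ps0) = b
      rw [hzc j 0]
      rcases hj2 j with rfl | rfl
      · rw [hef0]
        exact hzcol _ (hw1 a) (he1 a)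
      · rw [hef1]
        exact hzcol _ (hw2 a) (he2 a)
    · intro j a k
      refine ⟨adj_t_l H x y W T kd δ Dk m ps0 k ⟨rfl, rfl, rfl, vz, hzadj _⟩, ?_⟩
      show c (.t m ps0 (v, v', w) k) (lowM kd δ m (v, v', cp (K j) (ef j a), w) ps0) = θ k
      have h3 := htc j 0 (v, v', w) k (ef j a)
      simp only at h3
      rw [h3]
      rcases hj2 j with rfl | rfl
      · rw [hef0]
        exact hθ1 a k
      · rw [hef1]
        exact hθ2 a k
    · intro a a'
      show c (lowM kd δ m (v, v', cp (K 0) (ef 0 a), w) ps0)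
        (lowM kd δ m (v, v', cp (K 1) (ef 1 a'), w) ps0) = β
      rw [hef0, hef1]
      exact hηβ a a'
  refine hno b ⟨fun v => .z m ps0 v, ?_, fun v v' hvv => ⟨adj_z_z H x y W T kd δ Dk m ps0 hvv,
    hred v v' hvv, (hc _ _).trans (hred v v' hvv)⟩⟩
  intro v v' hvv
  injection hvv

end MP3240M
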