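import Pool.Agent.Lib.MP_3240be_co.N49.Defs
import Pool.Agent.Lib.MP_3240be_co.M64.Defs

/-!
# MP_3240be_co: all 2-connected graphs of chromatic number 3 (Theorem M)

Definitions and statements of the rows (board m3_modules, chair helper56).  Paper: finding 4598
(helper64).  The host is the host of Theorem N (N49/Defs.lean) with `τ` twins of every type in every
gadget and with pendant worlds: `pd w` is the pendant kind of the kind `w`, the pendant world of
`w` is the world `(none, pd w)` of the pool.  If `Dk` holds for the pendant kinds, all twins are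
joined to all lows of the pendant worlds (Case 2); in Case 1 `Dk` is false.
-/

set_option autoImplicit false

namespace MP3240M

open Finset MP3240T MP3240W
open MP3240N (Sig BigC CopyB Homog SP sm plc KN NoCut)
open Pool.Agent.Lib.MP_3240be_co.H36 (LocCol Blow)
open Pool.Agent.Lib.MP_3240be_co.H36.Chrom (Sparse)

/-! ## The graph `H` -/

/-- A proper colouring `κ` of `H` with `r + 1` colours, the class `none` has `h + 1` elements. -/
structure MData {n : ℕ} (H : SimpleGraph (Fin n)) (r h : ℕ) where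
  κ : Fin n → Option (Fin r)
  prop : ∀ i j, H.Adj i j → κ i ≠ κ j
  cardA : (univ.filter (fun x => κ x = none)).card = h + 1

/-! ## Rows without the host -/

/-- Row JOI (copy of `kec_join`, N49/Kec.lean): `r` sets of `n` vertices and `h + 1` further
vertices, completely joined, contain `H`. -/
def JoiStatement : Prop :=
  ∀ (n r h : ℕ) (H : SimpleGraph (Fin n)) (_ : MData H r h) (V : Type) (G : SimpleGraph V)
    (F : Fin r → Fin n → V) (T : Finset V), (∀ i, Function.Injective (F i)) →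
    (∀ i j, i ≠ j → ∀ u w, G.Adj (F i u) (F j w)) → h < T.card →
    (∀ s ∈ T, ∀ i u, G.Adj s (F i u)) → Emb H G

/-- Row KEY (`KeyStatement` of N49 for `MData`).  Proof: copy N49/Kew.lean and N49/Kec.lean. -/
def KeyStatement : Prop :=
  ∀ (n r h b₀ : ℕ) (H : SimpleGraph (Fin n)) (_ : MData H r h) (B : SimpleGraph (Fin b₀))
    (V : Type) (G : SimpleGraph V) (c : V → V → Bool) (E : Fin r → Fin b₀ → V)
    (η : Fin r → Fin r → Bool) (ρ : Fin r → Bool → ℕ) (A : Type) [Fintype A] (φ : A → V)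
    (θ : A → Fin r → Bool), 2 ≤ r → (∀ x y, c x y = c y x) → (∀ b, ¬ Emb H (cls G c b)) →
    (∀ j, Function.Injective (E j)) → (∀ j j' x y, j ≠ j' → G.Adj (E j x) (E j' y)) →
    (∀ j j' x y, j ≠ j' → c (E j x) (E j' y) = η j j') →
    (∀ j x y, B.Adj x y → G.Adj (E j x) (E j y)) →
    (∀ j b, Blow B (fun x y => c (E j x) (E j y)) n (ρ j b) b) →
    (∀ j, r + 1 ≤ ρ j true + ρ j false) → Function.Injective φ →
    (∀ a j x, G.Adj (φ a) (E j x)) → (∀ a j x, c (φ a) (E j x) = θ a j) →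
    (r + 1) * h ≤ Fintype.card A →
    ∃ b, (∀ j j', j ≠ j' → η j j' = b) ∧ (∀ j, ρ j b = 1 ∧ ρ j (!b) = r) ∧
      (∀ a j j', θ a j = !b → θ a j' = !b → j = j') ∧
      ∀ s j, (∀ x, G.Adj s (E j x)) → (∀ x, c s (E j x) = !b) → ∃ a, s = φ a

/-- Row EM1 (embedding for RULE 1; as N49/Emr.lean, for every vertex `α` of the class `none`).
`r` sets of `n` vertices `E j`, completely joined to each other; `h` vertices `U` joined to all
`E j x`; a vertex `v` joined to the `E j x`, `j ≠ j₀`, and to `n` vertices `S`, which are joined to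
`U` and to the `E j x`, `j ≠ j₀`.  `α` goes to `v`, its neighbours in class `j₀` to `S`, the other
vertices of class `none` to `U`. -/
def Em1Statement : Prop :=
  ∀ (n r h : ℕ) (H : SimpleGraph (Fin n)) (_ : MData H r h) (V : Type) (G : SimpleGraph V)
    (E : Fin r → Fin n → V) (U : Fin h → V) (v : V) (j₀ : Fin r) (S : Finset V),
    (∀ j, Function.Injective (E j)) → Function.Injective U →
    (∀ j j' x y, j ≠ j' → G.Adj (E j x) (E j' y)) → (∀ s j x, G.Adj (U s) (E j x)) →
    (∀ j x, j ≠ j₀ → G.Adj v (E j x)) → (∀ a ∈ S, G.Adj v a) → n ≤ S.card →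
    (∀ a ∈ S, ∀ s, G.Adj (U s) a) → (∀ a ∈ S, ∀ j x, j ≠ j₀ → G.Adj a (E j x)) →
    (∀ a ∈ S, ∀ j x, a ≠ E j x) → (∀ j x, v ≠ E j x) → (∀ s, v ≠ U s) → Emb H G

/-- Row EMA (embedding for RULE 2, Case 1).  `I` goes to `P`, `X` to `U`, the neighbours `u` of `I`
to `L (κ u)`, the other vertices to `E (κ u)`. -/
def EmaStatement : Prop :=
  ∀ (n h : ℕ) (H : SimpleGraph (Fin n)) (_ : AStar H h) (V : Type) (G : SimpleGraph V)
    (E L : Bool → Fin n → V) (U : Fin h → V) (P : Fin n → V),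
    (∀ j, Function.Injective (E j)) → (∀ j, Function.Injective (L j)) → Function.Injective U →
    Function.Injective P → (∀ x y, G.Adj (E false x) (E true y)) →
    (∀ s j x, G.Adj (U s) (E j x)) → (∀ s j x, G.Adj (U s) (L j x)) →
    (∀ s j x, G.Adj (P s) (L j x)) → (∀ j x y, G.Adj (L j x) (E (!j) y)) →
    (∀ j j' x y, L j x ≠ E j' y) → (∀ x y, L false x ≠ L true y) →
    (∀ s j x, P s ≠ E j x) → (∀ s s', P s ≠ U s') → Emb H G

/-- A Ramsey number: `f` colours the points, `η` the pairs. -/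
def RamP (n N : ℕ) (K : Type) : Prop :=
  ∀ (f : Fin N → K) (η : Fin N → Fin N → Bool), ∃ (e e' : Fin n → Fin N) (k : K) (β : Bool),
    Function.Injective e ∧ Function.Injective e' ∧ (∀ a, f (e a) = k) ∧ (∀ a, f (e' a) = k) ∧
      ∀ a a', η (e a) (e' a') = β

/-- Row RAM.  Proof: pigeon hole for `f`, then the bipartite Ramsey theorem. -/
def RamStatement : Prop :=
  ∀ (n : ℕ) (K : Type) [Finite K], ∃ N, 1 ≤ N ∧ RamP n N K

/-- Row KW2: the graph of the kinds with pendant kinds.  Proof: `kw_proof` (N49/Kw.lean, `r = 2`)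
for the vertices `(w, false)`; new vertices `(w, true)` of degree 1; `pd (w, _) = (w, true)`. -/
def Kw2Statement : Prop :=
  ∀ (g : ℕ) (K : Type) [Finite K] [Nonempty K],
    ∃ (q : ℕ) (W : SimpleGraph (Fin q)) (pd : Fin q → Fin q) (Dk : Fin q → Prop), LocCol W g 2 ∧
      (∀ w w', Dk w → Dk w' → ¬ W.Adj w w') ∧ (∀ w, Dk (pd w)) ∧
      ∀ κ : Fin q → K, ∃ e : Fin 2 → Fin q, (∀ j j', j ≠ j' → W.Adj (e j) (e j')) ∧
        (∀ j j', κ (e j) = κ (e j')) ∧ (∀ j, W.Adj (e j) (pd (e j))) ∧ ∀ j j', pd (e j) ≠ e j'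

/-! ## The host -/

/-- The vertices of the host: `u`, `c`, `l`, `z` as in N49; `t m ps s k` = the twin number `k` of
type `s` of the gadget `(m, ps)`. -/
inductive VM (n h q L τ : ℕ) (I M : Type) : Type
  | u : Fin h → VM n h q L τ I M
  | c : Option I → Fin q → Fin h → VM n h q L τ I M
  | l : Option I → Fin q → Fin L → VM n h q L τ I M
  | z : M → (Fin q → Fin L) → Fin n → VM n h q L τ I M
  | t : M → (Fin q → Fin L) → Fin n × Fin n × Fin n → Fin τ → VM n h q L τ I M

/-- The low in a slot of the gadget `(m, ps)`. -/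
def lowM {n h N q L τ : ℕ} {I M : Type} (kd : Fin N → Fin q) (δ : M → SP n N q L → I) (m : M)
    (t : Slot n N) (ps : Fin q → Fin L) : VM n h q L τ I M :=
  .l (some (δ m (t, ps))) (kd t.2.2.1) (ps (kd t.2.2.1))

/-- The edges of the host, in one direction. `T (true, w)`: the pool. -/
def relM {n h N q L τ : ℕ} {I M : Type} (H : SimpleGraph (Fin n)) (x y : Fin n)
    (W : SimpleGraph (Fin q)) (T : Bool × Fin q → SimpleGraph (Fin L)) (kd : Fin N → Fin q)
    (δ : M → SP n N q L → I) (Dk : Fin q → Prop) :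
    VM n h q L τ I M → VM n h q L τ I M → Prop
  | .u _, .l _ _ _ => True
  | .c i w _, .l i' w' _ => (i = i' ∧ w = w') ∨ W.Adj w w'
  | .l i w t, .l i' w' t' => W.Adj w w' ∨ (i = i' ∧ w = w' ∧ (T (i.isNone, w)).Adj t t') ∨
      ∃ m ps s s', VM.l i w t = lowM (h := h) (τ := τ) kd δ m s ps ∧
        VM.l i' w' t' = lowM (h := h) (τ := τ) kd δ m s' ps ∧ blobAdj H x y s s'
  | .z m ps v, .l i w t => ∃ s, VM.l i w t = lowM (h := h) (τ := τ) kd δ m s ps ∧ zAdj H x y v s
  | .z m ps v, .z m' ps' v' => m = m' ∧ ps = ps' ∧ H.Adj v v'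
  | .t m ps σ _, .l i w t =>
      (∃ s, VM.l i w t = lowM (h := h) (τ := τ) kd δ m s ps ∧ twAdj H x y σ s) ∨
      (i = none ∧ Dk w)
  | _, _ => False

/-- The host. -/
def FM {n h N q L τ : ℕ} {I M : Type} (H : SimpleGraph (Fin n)) (x y : Fin n)
    (W : SimpleGraph (Fin q)) (T : Bool × Fin q → SimpleGraph (Fin L)) (kd : Fin N → Fin q)
    (δ : M → SP n N q L → I) (Dk : Fin q → Prop) : SimpleGraph (VM n h q L τ I M) :=
  SimpleGraph.fromRel (relM H x y W T kd δ Dk)

/-- The red edges of the good colouring, in one direction. -/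
def redM {n h q L τ : ℕ} {I M : Type} (W : SimpleGraph (Fin q)) :
    VM n h q L τ I M → VM n h q L τ I M → Prop
  | .u _, .l _ _ _ => True
  | .c _ w _, .l _ w' _ => W.Adj w w'
  | .l _ w _, .l _ w' _ => W.Adj w w'
  | .z _ _ _, .z _ _ _ => True
  | .t _ _ _ _, .l none _ _ => True
  | _, _ => False

/-- The good colouring (`true` = red). -/
noncomputable def cM {n h q L τ : ℕ} {I M : Type} (W : SimpleGraph (Fin q))
    (a b : VM n h q L τ I M) : Bool := by
  classical exact decide (redM W a b ∨ redM W b a)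

/-! ## The good colouring -/

/-- Row RDM: the red copies of `H` are the sets `z m ps`.  Proof: as N49/Rdn.lean; if a copy uses
twins, then `AStar H h` (`I` = the twins, `X` = the hubs `u`, `κ` = colours of the kinds). -/
def RdmStatement : Prop :=
  ∀ (n h N q L τ : ℕ) (H : SimpleGraph (Fin n)) (x y : Fin n) (W : SimpleGraph (Fin q))
    (T : Bool × Fin q → SimpleGraph (Fin L)) (kd : Fin N → Fin q) (I M : Type)
    (δ : M → SP n N q L → I) (Dk : Fin q → Prop), Sig H 2 h → H.Connected → LocCol W n 2 →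
    (∀ w w', Dk w → Dk w' → ¬ W.Adj w w') → ((∀ w, ¬ Dk w) ∨ ¬ AStar H h) →
    ∀ f : Fin n → VM n h q L τ I M, Function.Injective f →
      (∀ i j, H.Adj i j → (cls (FM H x y W T kd δ Dk) (cM W) true).Adj (f i) (f j)) →
      ∃ m ps, ∀ i, ∃ v, f i = .z m ps v

/-- Row GAM: no blue copy of `H` in the gadgets of one hyperedge.  Proof: as N49/Gan.lean, from
`TwinFree` instead of `Bvh.core`. -/
def GamStatement : Prop :=
  ∀ (n h N q L τ : ℕ) (H : SimpleGraph (Fin n)) (x y : Fin n) (W : SimpleGraph (Fin q))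
    (T : Bool × Fin q → SimpleGraph (Fin L)) (kd : Fin N → Fin q) (I M : Type)
    (δ : M → SP n N q L → I) (Dk : Fin q → Prop), 2 ≤ n → H.Adj x y → TwoC (ed H) →
    H.Connected → TwinFree H x y → (∀ m, Function.Injective (δ m)) → Sparse (n * n) δ →
    ∀ (f : Fin n → VM n h q L τ I M) (m : M), Function.Injective f →
      (∀ i j, H.Adj i j → (cls (FM H x y W T kd δ Dk) (cM W) false).Adj (f i) (f j)) →
      ¬ ∀ i, (∃ ps v, f i = .z m ps v) ∨ (∃ t ps, f i = lowM kd δ m t ps) ∨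
        ∃ ps s k, f i = .t m ps s k

/-- Row BLM: no blue copy of `H`.  Proof: as N49/Bln.lean (twins belong to the gadgets). -/
def BlmStatement : Prop :=
  ∀ (n h N q L τ r : ℕ) (H : SimpleGraph (Fin n)) (x y : Fin n) (W : SimpleGraph (Fin q))
    (T : Bool × Fin q → SimpleGraph (Fin L)) (kd : Fin N → Fin q) (I M : Type)
    (δ : M → SP n N q L → I) (Dk : Fin q → Prop), Sig H r h → 2 ≤ n → H.Adj x y →
    TwoC (ed H) → H.Connected → TwinFree H x y → (∀ a, LocCol (T a) n r) →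
    (∀ m, Function.Injective (δ m)) → Sparse (n * n) δ →
    ¬ Emb H (cls (FM (h := h) (τ := τ) H x y W T kd δ Dk) (cM W) false)

/-- Row NFM: the host is not Ramsey for `H'`.  Proof: as N49/Nfn.lean. -/
def NfmStatement : Prop :=
  ∀ (n n' h N q L τ : ℕ) (H : SimpleGraph (Fin n)) (H' : SimpleGraph (Fin n')) (x y : Fin n)
    (W : SimpleGraph (Fin q)) (T : Bool × Fin q → SimpleGraph (Fin L)) (kd : Fin N → Fin q)
    (I M : Type) (δ : M → SP n N q L → I) (Dk : Fin q → Prop), Sig H 2 h → 2 ≤ n →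
    H.Adj x y → TwoC (ed H) → H.Connected → TwinFree H x y → LocCol W n 2 →
    (∀ w w', Dk w → Dk w' → ¬ W.Adj w w') → ((∀ w, ¬ Dk w) ∨ ¬ AStar H h) →
    (∀ a, LocCol (T a) n 2) → (∀ m, Function.Injective (δ m)) → Sparse (n * n) δ →
    H'.Connected → Emb H H' → ¬ Emb H' H →
    ¬ Arr (FM (h := h) (τ := τ) H x y W T kd δ Dk) H'

/-! ## Colourings of the host without monochromatic `H` -/

/-- The colours of a low of kind `w` to the hubs `u` and to the hubs of the pendant world of `w`. -/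
abbrev PM (h : ℕ) : Type := (Fin h → Bool) × (Fin h → Bool)

/-- The classes of copies of `B`: colours to the hubs, numbers of parts of the blow-ups. -/
abbrev QM (r h : ℕ) : Type := PM h × (Bool → Fin (r + 1))

/-- The copies of `B` in the world `(p, w)` of class `s`. -/
def CopM {n h q L τ b₀ r : ℕ} {I M : Type} (B : SimpleGraph (Fin b₀))
    (T : Bool × Fin q → SimpleGraph (Fin L)) (pd : Fin q → Fin q)
    (c : VM n h q L τ I M → VM n h q L τ I M → Bool)
    (p : Option I) (w : Fin q) (s : QM r h) (e : Fin b₀ → Fin L) : Prop :=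
  CopyB B (T (p.isNone, w)) e ∧ (∀ x k, c (.u k) (.l p w (e x)) = s.1.1 k) ∧
    (∀ x k, c (.c none (pd w) k) (.l p w (e x)) = s.1.2 k) ∧
    ∀ b, Blow B (fun x y => c (.l p w (e x)) (.l p w (e y))) n (s.2 b) b

/-- Classes chosen for all worlds, and a position in each class. -/
structure Classes {n h q L τ b₀ : ℕ} {I M : Type} (r : ℕ) (B : SimpleGraph (Fin b₀))
    (T : Bool × Fin q → SimpleGraph (Fin L)) (K' : Bool × Fin q → Type) (pd : Fin q → Fin q)
    (c : VM n h q L τ I M → VM n h q L τ I M → Bool) where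
  s : Option I → Fin q → QM r h
  two : ∀ p w, r + 1 ≤ ((s p w).2 true : ℕ) + (s p w).2 false
  big : ∀ p w, BigC (CopM B T pd c p w (s p w)) (K' (p.isNone, w))
  ps : Option I → Fin q → Fin L
  hps : ∀ p w k, c (.u k) (.l p w (ps p w)) = (s p w).1.1 k
  hpc : ∀ p w k, c (.c none (pd w) k) (.l p w (ps p w)) = (s p w).1.2 k

/-- Row CLA: classes exist.  Proof: copy N49/Cla.lean. -/
def ClaStatement : Prop :=
  ∀ (n h N q L τ r b₀ : ℕ) (H : SimpleGraph (Fin n)) (_ : MData H r h) (x y : Fin n)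
    (W : SimpleGraph (Fin q)) (T : Bool × Fin q → SimpleGraph (Fin L))
    (K' : Bool × Fin q → Type) (kd : Fin N → Fin q) (I M : Type) (δ : M → SP n N q L → I)
    (Dk : Fin q → Prop) (pd : Fin q → Fin q)
    (B : SimpleGraph (Fin b₀)) (c : VM n h q L τ I M → VM n h q L τ I M → Bool), 1 ≤ r →
    1 ≤ b₀ → Homog B (Bool × Fin q) (QM r h) (PM h) (KN n r h q) T K' →
    (∀ c : Fin b₀ → Fin b₀ → Bool, (∀ x y, c x y = c y x) →
      ∃ A A', r + 1 ≤ A + A' ∧ Blow B c n A true ∧ Blow B c n A' false) →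
    (∀ x y, c x y = c y x) → (∀ b, ¬ Emb H (cls (FM H x y W T kd δ Dk) c b)) →
    Nonempty (Classes r B T K' pd c)

/-- Homogeneous copies in all worlds of the index `i` and of the pool; `S` = special vertices. -/
structure Hst {n h q L τ b₀ : ℕ} {I M : Type} {r : ℕ} {B : SimpleGraph (Fin b₀)}
    {T : Bool × Fin q → SimpleGraph (Fin L)} {K' : Bool × Fin q → Type} {pd : Fin q → Fin q}
    {c : VM n h q L τ I M → VM n h q L τ I M → Bool} (Cs : Classes r B T K' pd c) (i : I)
    (S : Fin (sm n r) → VM n h q L τ I M) where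
  e : Bool → Fin q → Fin b₀ → Fin L
  cop : ∀ lv w, CopM B T pd c (plc i lv) w (Cs.s (plc i lv) w) (e lv w)
  hub : ∀ lv w lv' w' k x y, c (.c (plc i lv') w' k) (.l (plc i lv) w (e lv w x)) =
    c (.c (plc i lv') w' k) (.l (plc i lv) w (e lv w y))
  spe : ∀ lv w k x y, c (S k) (.l (plc i lv) w (e lv w x)) = c (S k) (.l (plc i lv) w (e lv w y))
  crs : ∀ lv w lv' w', w ≠ w' → ∀ x y x' y',
    c (.l (plc i lv) w (e lv w x)) (.l (plc i lv') w' (e lv' w' x')) =
      c (.l (plc i lv) w (e lv w y)) (.l (plc i lv') w' (e lv' w' y'))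

/-- Row HST.  Proof: copy N49/Hst.lean. -/
def HstStatement : Prop :=
  ∀ (n h q L τ r b₀ : ℕ) (T : Bool × Fin q → SimpleGraph (Fin L)) (K' : Bool × Fin q → Type)
    (I M : Type) (pd : Fin q → Fin q) (B : SimpleGraph (Fin b₀))
    (c : VM n h q L τ I M → VM n h q L τ I M → Bool),
    Homog B (Bool × Fin q) (QM r h) (PM h) (KN n r h q) T K' →
    ∀ (Cs : Classes r B T K' pd c) (i : I) (S : Fin (sm n r) → VM n h q L τ I M),
      Nonempty (Hst Cs i S)

/-- Row FRC: KEY for the worlds `(plc i (ℓ j), K j)`.  The last part excludes only the hubs `u` and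
the private hubs of these worlds.  Proof: as N49/Frc.lean. -/
def FrcStatement : Prop :=
  ∀ (n h N q L τ r b₀ : ℕ) (H : SimpleGraph (Fin n)) (_ : MData H r h) (x y : Fin n)
    (W : SimpleGraph (Fin q)) (T : Bool × Fin q → SimpleGraph (Fin L))
    (K' : Bool × Fin q → Type) (kd : Fin N → Fin q) (I M : Type) (δ : M → SP n N q L → I)
    (Dk : Fin q → Prop) (pd : Fin q → Fin q)
    (B : SimpleGraph (Fin b₀)) (c : VM n h q L τ I M → VM n h q L τ I M → Bool), 2 ≤ r →
    (∀ x y, c x y = c y x) → (∀ b, ¬ Emb H (cls (FM H x y W T kd δ Dk) c b)) →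
    ∀ (Cs : Classes r B T K' pd c) (i : I) (S : Fin (sm n r) → VM n h q L τ I M)
      (Z : Hst Cs i S) (K : Fin r → Fin q) (ℓ : Fin r → Bool),
      (∀ j j', j ≠ j' → W.Adj (K j) (K j')) →
      ∃ b, (∀ j j', j ≠ j' → ∀ a a', c (.l (plc i (ℓ j)) (K j) (Z.e (ℓ j) (K j) a))
          (.l (plc i (ℓ j')) (K j') (Z.e (ℓ j') (K j') a')) = b) ∧
        (∀ j, ((Cs.s (plc i (ℓ j)) (K j)).2 b : ℕ) = 1 ∧
          ((Cs.s (plc i (ℓ j)) (K j)).2 (!b) : ℕ) = r) ∧
        (∀ k j j', (Cs.s (plc i (ℓ j)) (K j)).1.1 k = !b →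
          (Cs.s (plc i (ℓ j')) (K j')).1.1 k = !b → j = j') ∧
        ∀ s j, (∀ k, s ≠ .u k) → (∀ j' k, s ≠ .c (plc i (ℓ j')) (K j') k) →
          (∀ a, (FM H x y W T kd δ Dk).Adj s (.l (plc i (ℓ j)) (K j) (Z.e (ℓ j) (K j) a))) →
          ¬ ∀ a, c s (.l (plc i (ℓ j)) (K j) (Z.e (ℓ j) (K j) a)) = !b

/-- The kinds `K j` are pairwise adjacent and forced with colour `b` at the index `i` and in the
pool. -/
structure Fine {n h q L τ b₀ : ℕ} {I M : Type} {r : ℕ} {B : SimpleGraph (Fin b₀)}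
    {T : Bool × Fin q → SimpleGraph (Fin L)} {K' : Bool × Fin q → Type} {pd : Fin q → Fin q}
    {c : VM n h q L τ I M → VM n h q L τ I M → Bool} (W : SimpleGraph (Fin q))
    (Cs : Classes r B T K' pd c) (i : I) (K : Fin r → Fin q) (b : Bool) : Prop where
  adj : ∀ j j', j ≠ j' → W.Adj (K j) (K j')
  pad : ∀ j, W.Adj (K j) (pd (K j))
  pne : ∀ j j', pd (K j) ≠ K j'
  ui : ∀ j k, (Cs.s (some i) (K j)).1.1 k = b
  up : ∀ j k, (Cs.s none (K j)).1.1 k = b
  ci : ∀ j k, (Cs.s (some i) (K j)).1.2 k = b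
  cq : ∀ j k, (Cs.s none (K j)).1.2 k = b
  one : ∀ j, ((Cs.s none (K j)).2 b : ℕ) = 1

/-- Row FIN ((T2)): if the classes of the kinds `K j` agree, then `K` is fine.  Proof: `ui`, `up`,
`one` as N49/Fine.lean; `ci`, `cq`: last part of FRC for the vertex `.c none (pd (K j)) k`. -/
def FineStatement : Prop :=
  ∀ (n h N q L τ r b₀ : ℕ) (H : SimpleGraph (Fin n)) (_ : MData H r h) (x y : Fin n)
    (W : SimpleGraph (Fin q)) (T : Bool × Fin q → SimpleGraph (Fin L))
    (K' : Bool × Fin q → Type) (kd : Fin N → Fin q) (I M : Type) (δ : M → SP n N q L → I)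
    (Dk : Fin q → Prop) (pd : Fin q → Fin q)
    (B : SimpleGraph (Fin b₀)) (c : VM n h q L τ I M → VM n h q L τ I M → Bool), 2 ≤ r →
    1 ≤ b₀ → (∀ x y, c x y = c y x) → (∀ b, ¬ Emb H (cls (FM H x y W T kd δ Dk) c b)) →
    ∀ (Cs : Classes r B T K' pd c) (i : I) (S : Fin (sm n r) → VM n h q L τ I M)
      (_ : Hst Cs i S) (K : Fin r → Fin q), (∀ j j', j ≠ j' → W.Adj (K j) (K j')) →
      (∀ j, W.Adj (K j) (pd (K j))) → (∀ j j', pd (K j) ≠ K j') →
      (∀ j j', (Cs.s (some i) (K j)).1.1 = (Cs.s (some i) (K j')).1.1) →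
      (∀ j j', (Cs.s none (K j)).1.1 = (Cs.s none (K j')).1.1) → ∃ b, Fine W Cs i K b

/-- Row RU1 (RULE 1).  `v` is a low (not of the pool), `A` consists of lows of kind `K j₀` (not of
the pool), which have colour `b` to `v` and to all `u`; `v` is joined to all lows of the kinds
`K j`, `j ≠ j₀`.  Proof: as N49/Rul.lean, from EM1. -/
def Ru1Statement : Prop :=
  ∀ (n h N q L τ r b₀ : ℕ) (H : SimpleGraph (Fin n)) (_ : MData H r h) (x y : Fin n)
    (W : SimpleGraph (Fin q)) (T : Bool × Fin q → SimpleGraph (Fin L))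
    (K' : Bool × Fin q → Type) (kd : Fin N → Fin q) (I M : Type) (δ : M → SP n N q L → I)
    (Dk : Fin q → Prop) (pd : Fin q → Fin q)
    (B : SimpleGraph (Fin b₀)) (c : VM n h q L τ I M → VM n h q L τ I M → Bool), 2 ≤ r →
    (∀ x y, c x y = c y x) → (∀ b, ¬ Emb H (cls (FM H x y W T kd δ Dk) c b)) →
    ∀ (Cs : Classes r B T K' pd c), (∀ (i : I) (S : Fin (sm n r) → VM n h q L τ I M),
        Nonempty (Hst Cs i S)) →
      ∀ (i : I) (K : Fin r → Fin q) (b : Bool), Fine W Cs i K b →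
      ∀ (i' : I) (w : Fin q) (t : Fin L) (j₀ : Fin r) (A : Finset (VM n h q L τ I M)),
        (∀ j, j ≠ j₀ → W.Adj w (K j)) → (∀ a ∈ A, ∃ i'' t', a = .l (some i'') (K j₀) t') →
        (∀ a ∈ A, ∀ k, c (.u k) a = b) →
        (∀ a ∈ A, (FM H x y W T kd δ Dk).Adj (.l (some i') w t) a ∧
          c (.l (some i') w t) a = b) → n ≤ A.card → False

/-- Row PEN ((R1), (R2) of the paper; Case 2).  A twin has fewer than `n` neighbours of colour `b`
among the lows of a fine kind `K j₀` which have colour `b` to the hubs `u` and to the hubs of the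
pendant world.  Proof: FRC for the adjacent kinds `K j₀`, `pd (K j₀)` (pool worlds; special
vertices: the twin and `n` elements of `A`): the number `b` of FRC is `b` by `one`; at most `h` of
the `2 h` hubs `u`, `.c none (pd (K j₀))` have colour `!b` on the copy in the pendant world (JOI),
so `h` others, the twin and the `n` elements of `A` have colour `b` on it: JOI in colour `b`. -/
def PenStatement : Prop :=
  ∀ (n h N q L τ b₀ : ℕ) (H : SimpleGraph (Fin n)) (_ : MData H 2 h) (x y : Fin n)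
    (W : SimpleGraph (Fin q)) (T : Bool × Fin q → SimpleGraph (Fin L))
    (K' : Bool × Fin q → Type) (kd : Fin N → Fin q) (I M : Type) (δ : M → SP n N q L → I)
    (Dk : Fin q → Prop) (pd : Fin q → Fin q)
    (B : SimpleGraph (Fin b₀)) (c : VM n h q L τ I M → VM n h q L τ I M → Bool),
    (∀ x y, c x y = c y x) → (∀ b, ¬ Emb H (cls (FM H x y W T kd δ Dk) c b)) →
    ∀ (Cs : Classes 2 B T K' pd c), (∀ (i : I) (S : Fin (sm n 2) → VM n h q L τ I M),
        Nonempty (Hst Cs i S)) →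
      ∀ (i : I) (K : Fin 2 → Fin q) (b : Bool), Fine W Cs i K b →
      ∀ (j₀ : Fin 2) (m : M) (ps : Fin q → Fin L) (σ : Fin n × Fin n × Fin n) (κ : Fin τ)
        (A : Finset (VM n h q L τ I M)), Dk (pd (K j₀)) →
        (∀ a ∈ A, ∃ i' t', a = .l (some i') (K j₀) t') →
        (∀ a ∈ A, ∀ k, c (.u k) a = b) → (∀ a ∈ A, ∀ k, c (.c none (pd (K j₀)) k) a = b) →
        (∀ a ∈ A, (FM H x y W T kd δ Dk).Adj (.t m ps σ κ) a ∧ c (.t m ps σ κ) a = b) →
        n ≤ A.card → False

/-- Row RU2 (RULE 2, both cases).  `La`, `Lb`: `n` lows each, of the fine kinds `K 0`, `K 1`; the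
free vertex `z` has colour `b` to them, the twins of type `σ` have constant colours `θ k`, the
edges between `La` and `Lb` have one colour `η`.  Proof: `η = b`: JOI with `u`, `z`; `η = !b`: at
most `h` twins have `θ k = !b` (JOI), so `n` have `θ k = b`: EMA (Case 1; special vertices `La`,
`Lb`; `E` = the copies in the pool worlds of `K 0`, `K 1`) or PEN (Case 2). -/
def Ru2Statement : Prop :=
  ∀ (n h N q L τ b₀ : ℕ) (H : SimpleGraph (Fin n)) (_ : MData H 2 h) (x y : Fin n)
    (W : SimpleGraph (Fin q)) (T : Bool × Fin q → SimpleGraph (Fin L))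
    (K' : Bool × Fin q → Type) (kd : Fin N → Fin q) (I M : Type) (δ : M → SP n N q L → I)
    (Dk : Fin q → Prop) (pd : Fin q → Fin q)
    (B : SimpleGraph (Fin b₀)) (c : VM n h q L τ I M → VM n h q L τ I M → Bool),
    1 ≤ n → n + h ≤ τ → (AStar H h ∨ ∀ w, Dk (pd w)) →
    (∀ x y, c x y = c y x) → (∀ b, ¬ Emb H (cls (FM H x y W T kd δ Dk) c b)) →
    ∀ (Cs : Classes 2 B T K' pd c), (∀ (i : I) (S : Fin (sm n 2) → VM n h q L τ I M),
        Nonempty (Hst Cs i S)) →
      ∀ (i : I) (K : Fin 2 → Fin q) (b : Bool), Fine W Cs i K b →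
      ∀ (m : M) (ps : Fin q → Fin L) (σ : Fin n × Fin n × Fin n) (v : Fin n)
        (Lw : Fin 2 → Fin n → VM n h q L τ I M) (θ : Fin τ → Bool) (η : Bool),
        (∀ j, Function.Injective (Lw j)) → (∀ j a, ∃ i' t', Lw j a = .l (some i') (K j) t') →
        (∀ j a k, c (.u k) (Lw j a) = b) → (∀ j a k, c (.c none (pd (K j)) k) (Lw j a) = b) →
        (∀ j a, (FM H x y W T kd δ Dk).Adj (.z m ps v) (Lw j a) ∧
          c (.z m ps v) (Lw j a) = b) →
        (∀ j a k, (FM H x y W T kd δ Dk).Adj (.t m ps σ k) (Lw j a) ∧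
          c (.t m ps σ k) (Lw j a) = θ k) →
        (∀ a a', c (Lw 0 a) (Lw 1 a') = η) → False

/-- The colours of the kinds in the final step: colours of the classes to the hubs `u` (at the
index and in the pool), colours between the free vertices, the twins and the slots. -/
abbrev ColM (n h τ N₀ : ℕ) : Type :=
  (Fin h → Bool) × (Fin h → Bool) × (Fin n → Fin n → Fin n → Fin N₀ → Fin n → Bool) ×
    (Fin n × Fin n × Fin n → Fin τ → Fin N₀ → Bool)

/-- Row ARM: the host is Ramsey for `H`.  Proof: as N49/Arn.lean; the last step: if `z v z v'` has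
colour `!b`, then every blob `(v, v', cp (K 0) ν)` has an edge of colour `b` at `z v` or `z v'`;
RAM for `f ν` = (inner vertex, end, colours of the twins), `η` = colours between the slots of the
kinds `K 0`, `K 1`; RU2. -/
def ArmStatement : Prop :=
  ∀ (n h N q L τ N₀ b₀ : ℕ) (H : SimpleGraph (Fin n)) (_ : MData H 2 h) (x y : Fin n)
    (W : SimpleGraph (Fin q)) (T : Bool × Fin q → SimpleGraph (Fin L))
    (K' : Bool × Fin q → Type) (kd : Fin N → Fin q) (cp : Fin q → Fin N₀ → Fin N)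
    (I M : Type) [Finite I] [Finite M] (δ : M → SP n N q L → I) (Dk : Fin q → Prop)
    (pd : Fin q → Fin q) (B : SimpleGraph (Fin b₀)),
    1 ≤ b₀ → n + h ≤ τ → 1 ≤ N₀ → (AStar H h ∨ ∀ w, Dk (pd w)) → H.Adj x y →
    (∀ w a, kd (cp w a) = w) → (∀ w, Function.Injective (cp w)) →
    RamP n N₀ (Fin n × Bool × (Fin τ → Bool)) →
    (∀ κ : Fin q → ColM n h τ N₀, ∃ e : Fin 2 → Fin q, (∀ j j', j ≠ j' → W.Adj (e j) (e j')) ∧
        (∀ j j', κ (e j) = κ (e j')) ∧ (∀ j, W.Adj (e j) (pd (e j))) ∧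
        ∀ j j', pd (e j) ≠ e j') →
    Homog B (Bool × Fin q) (QM 2 h) (PM h) (KN n 2 h q) T K' →
    (∀ c : Fin b₀ → Fin b₀ → Bool, (∀ x y, c x y = c y x) →
      ∃ A A', 2 + 1 ≤ A + A' ∧ Blow B c n A true ∧ Blow B c n A' false) →
    (∀ m, Function.Injective (δ m)) → Sparse (n * n) δ →
    (∀ (lab : I → Fin q → QM 2 h × Fin L) (bad : I → Finset M),
      (∀ i, (bad i).card ≤ q * n) →
      ∃ m, (∀ t t', lab (δ m t) = lab (δ m t')) ∧ ∀ t, m ∉ bad (δ m t)) →
    Arr (FM (h := h) (τ := τ) H x y W T kd δ Dk) H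

/-- Row MNM: Theorem M.  Proof: as N49/Mnn.lean, with the cases `AStar H h` (`Dk` = nothing) and
`¬ AStar H h` (`Dk` of KW2). -/
def MnmStatement : Prop :=
  ∀ (n n' h : ℕ) (H : SimpleGraph (Fin n)) (H' : SimpleGraph (Fin n')) (x y : Fin n)
    (_ : MData H 2 h), H.Adj x y → TwinFree H x y → Sig H 2 h → H.Connected → TwoC (ed H) →
    H'.Connected → Emb H H' → ¬ Emb H' H →
    ∃ (m : ℕ) (F : SimpleGraph (Fin m)), Arr F H ∧ ¬ Arr F H'

/-- Row CRM: the final form.  Proof: take a proper colouring with 3 colours and a colour class of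
least size; without triangles N49 (`CrnStatement`), with triangles CLO and MNM. -/
def CrmStatement : Prop :=
  ∀ (n n' : ℕ) (H : SimpleGraph (Fin n)) (H' : SimpleGraph (Fin n')), 3 ≤ n → NoCut H →
    H.Colorable 3 → ¬ H.Colorable 2 → H'.Connected → Emb H H' → ¬ Emb H' H →
    ∃ (m : ℕ) (F : SimpleGraph (Fin m)), Arr F H ∧ ¬ Arr F H'

end MP3240M
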