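import Pool.Agent.Lib.MP_3240be_co.M3.Defs

/-!
# Row KW2: the graph of the kinds with pendant kinds
-/

set_option autoImplicit false

namespace MP3240M

open Finset
open MP3240N (KwStatement)
open Pool.Agent.Lib.MP_3240be_co.H36 (LocCol)

/-- Adjacency of a graph with one pendant vertex at every vertex. -/
def kw2Rel {q : ℕ} (W : SimpleGraph (Fin q)) : Fin q ⊕ Fin q → Fin q ⊕ Fin q → Prop
  | .inl a, .inl b => W.Adj a b
  | .inl a, .inr b => a = b
  | .inr a, .inl b => a = b
  | .inr _, .inr _ => False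

/-- A graph with one pendant vertex at every vertex. -/
def kw2Gr {q : ℕ} (W : SimpleGraph (Fin q)) : SimpleGraph (Fin q ⊕ Fin q) where
  Adj := kw2Rel W
  symm := ⟨by
    rintro (a | a) (b | b) h
    · exact (show W.Adj a b from h).symm
    · exact Eq.symm h
    · exact Eq.symm h
    · exact h⟩
  loopless := ⟨by
    rintro (a | a) h
    · exact W.irrefl h
    · exact h⟩

/-- The vertex below. -/
def kw2Pr {q : ℕ} : Fin q ⊕ Fin q → Fin q := Sum.elim id id

theorem kw2_loc {q g : ℕ} (W : SimpleGraph (Fin q)) (h : LocCol W g 2) :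
    LocCol (kw2Gr W) g 2 := by
  classical
  intro X hX
  obtain ⟨f, hf, hf2⟩ := h (X.image kw2Pr) (card_image_le.trans hX)
  refine ⟨Sum.elim f (fun a => 1 - f a), ?_, ?_⟩
  · rintro (a | a)
    · exact hf a
    · simp only [Sum.elim_inr]; omega
  · rintro (a | a) hx (b | b) hy hxy
    · exact hf2 a (mem_image_of_mem kw2Pr hx) b (mem_image_of_mem kw2Pr hy) hxy
    · have h1 : a = b := hxy
      subst h1
      have := hf a
      simp only [Sum.elim_inl, Sum.elim_inr]
      omega
    · have h1 : a = b := hxy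
      subst h1
      have := hf a
      simp only [Sum.elim_inl, Sum.elim_inr]
      omega
    · exact False.elim hxy

/-- Row KW2. -/
theorem kw2_proof (hK : KwStatement) : Kw2Statement := by
  classical
  intro g K _ _
  obtain ⟨q, W, hW, hc⟩ := hK 2 g K (by norm_num)
  let E : Fin q ⊕ Fin q ≃ Fin (q + q) := finSumFinEquiv
  refine ⟨q + q, (kw2Gr W).comap E.symm, fun w => E (.inr (kw2Pr (E.symm w))),
    fun w => ∃ a, E.symm w = .inr a, ?_, ?_, ?_, ?_⟩
  · intro X hX
    obtain ⟨f, hf, hf2⟩ := kw2_loc W hW (X.image E.symm) (card_image_le.trans hX)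
    exact ⟨fun w => f (E.symm w), fun w => hf _, fun x hx y hy hxy =>
      hf2 _ (mem_image_of_mem _ hx) _ (mem_image_of_mem _ hy) hxy⟩
  · rintro w w' ⟨a, ha⟩ ⟨b, hb⟩ h
    change kw2Rel W (E.symm w) (E.symm w') at h
    rw [ha, hb] at h
    exact h
  · intro w
    exact ⟨_, E.symm_apply_apply _⟩
  · intro κ
    obtain ⟨e, he, he2⟩ := hc (fun a => κ (E (.inl a)))
    refine ⟨fun j => E (.inl (e j)), ?_, he2, ?_, ?_⟩
    · intro j j' hjj
      change kw2Rel W (E.symm _) (E.symm _)
      rw [E.symm_apply_apply, E.symm_apply_apply]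
      exact he j j' hjj
    · intro j
      change kw2Rel W (E.symm _) (E.symm _)
      rw [E.symm_apply_apply, E.symm_apply_apply, E.symm_apply_apply]
      rfl
    · intro j j' h
      have h1 := E.injective h
      exact Sum.inr_ne_inl h1

end MP3240M
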